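import Mathlib

set_option autoImplicit false

/-!
A selection lemma. Every `z : B` has at least two elements of `Q` above it, every element of `P`
has at most three. By Hall's theorem all `z` outside a small set `L` and its partners choose an
element of `Q` above them, with different images in `P`, and at least `#L` of the chosen images
have exactly three elements of `Q` above them.
-/

namespace Pool.Agent.H80C

open Finset Classical

private lemma fib {Q P : Type} [Fintype Q] [DecidableEq P] (τ : Q → P) (A : Finset P) :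
    #(univ.filter (fun s => τ s ∈ A)) = ∑ p ∈ A, #(univ.filter (fun s => τ s = p)) := by
  have h := Finset.card_eq_sum_card_fiberwise (f := τ) (s := univ.filter (fun s => τ s ∈ A))
    (t := A) (fun x hx => (mem_filter.1 (mem_coe.1 hx)).2)
  rw [h]
  refine Finset.sum_congr rfl (fun p hp => ?_)
  rw [Finset.filter_filter]
  congr 1
  ext x
  simp only [mem_filter, mem_univ, true_and]
  constructor
  · intro h; exact h.2
  · intro h; exact ⟨by rw [h]; exact hp, h⟩

theorem select {B Q P : Type} [Fintype B] [Fintype Q] [Fintype P] [DecidableEq B] [DecidableEq P]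
    (Z : Q → B) (τ : Q → P) (π : B → B) (hπ : ∀ z, π (π z) = z) (hπ' : ∀ z, π z ≠ z)
    (hZ : ∀ z, 2 ≤ #(univ.filter (fun s => Z s = z)))
    (hτ : ∀ p, #(univ.filter (fun s => τ s = p)) ≤ 3) :
    ∃ (L : Finset B) (S : Finset Q),
      (∀ z ∈ L, π z ∉ L) ∧ (∀ s ∈ S, Z s ∉ L ∧ π (Z s) ∉ L) ∧
      (∀ z, z ∉ L → π z ∉ L → ∃ s ∈ S, Z s = z) ∧
      (∀ s ∈ S, ∀ s' ∈ S, Z s = Z s' → s = s') ∧
      (∀ s ∈ S, ∀ s' ∈ S, τ s = τ s' → s = s') ∧
      #L ≤ #(S.filter (fun s => #(univ.filter (fun s' => τ s' = τ s)) = 3)) := by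
  rcases isEmpty_or_nonempty B with hB | hB
  · refine ⟨∅, ∅, ?_, ?_, ?_, ?_, ?_, ?_⟩
    · intro z; exact isEmptyElim z
    · intro s hs; exact absurd hs (notMem_empty s)
    · intro z; exact isEmptyElim z
    · intro s hs; exact absurd hs (notMem_empty s)
    · intro s hs; exact absurd hs (notMem_empty s)
    · simp
  -- the neighbours
  let N : B → Finset P := fun z => (univ.filter (fun s => Z s = z)).image τ
  have hN : ∀ z p, p ∈ N z ↔ ∃ s, Z s = z ∧ τ s = p := by
    intro z p
    show p ∈ (univ.filter (fun s => Z s = z)).image τ ↔ _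
    rw [mem_image]
    constructor
    · rintro ⟨s, hs, h⟩
      exact ⟨s, (mem_filter.1 hs).2, h⟩
    · rintro ⟨s, hs, h⟩
      exact ⟨s, mem_filter.2 ⟨mem_univ _, hs⟩, h⟩
  -- the deficiency
  obtain ⟨S0, -, hS0⟩ := Finset.exists_max_image (univ : Finset (Finset B))
    (fun S => (#S : ℤ) - #(S.biUnion N)) ⟨∅, mem_univ _⟩
  have hd0 : 0 ≤ (#S0 : ℤ) - #(S0.biUnion N) := by
    have := hS0 ∅ (mem_univ _)
    simpa using this
  obtain ⟨d, hd⟩ := Int.eq_ofNat_of_zero_le hd0
  have hmax : ∀ S : Finset B, (#S : ℤ) - #(S.biUnion N) ≤ d := by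
    intro S
    rw [← hd]
    exact hS0 S (mem_univ _)
  -- Hall's theorem
  let t : B → Finset (P ⊕ Fin d) := fun z => (N z).disjSum univ
  have hall : ∀ S : Finset B, #S ≤ #(S.biUnion t) := by
    intro S
    rcases S.eq_empty_or_nonempty with rfl | hne
    · simp
    have h1 : S.biUnion t = (S.biUnion N).disjSum univ := by
      ext x
      rw [mem_biUnion]
      rcases x with p | i
      · rw [inl_mem_disjSum, mem_biUnion]
        constructor
        · rintro ⟨z, hz, h⟩
          exact ⟨z, hz, inl_mem_disjSum.1 h⟩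
        · rintro ⟨z, hz, h⟩
          exact ⟨z, hz, inl_mem_disjSum.2 h⟩
      · rw [inr_mem_disjSum]
        obtain ⟨z, hz⟩ := hne
        exact ⟨fun _ => mem_univ _, fun _ => ⟨z, hz, inr_mem_disjSum.2 (mem_univ _)⟩⟩
    rw [h1, card_disjSum, card_univ, Fintype.card_fin]
    have := hmax S
    omega
  obtain ⟨φ, hφinj, hφ⟩ := (Finset.all_card_le_biUnion_card_iff_exists_injective t).1 hall
  -- the unassigned elements
  let U : Finset B := univ.filter (fun z => (φ z).isRight)
  have hU : #U ≤ d := by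
    have h1 : #(U.image φ) = #U := card_image_of_injective _ hφinj
    have h2 : U.image φ ⊆ (univ : Finset (Fin d)).image Sum.inr := by
      intro x hx
      obtain ⟨z, hz, rfl⟩ := mem_image.1 hx
      have h3 := (mem_filter.1 hz).2
      obtain ⟨i, hi⟩ := Sum.isRight_iff.1 h3
      exact mem_image.2 ⟨i, mem_univ _, hi.symm⟩
    rw [← h1]
    refine (card_le_card h2).trans (card_image_le.trans ?_)
    rw [card_univ, Fintype.card_fin]
  -- elements above
  have hsel : ∀ z, z ∉ U → ∃ s, Z s = z ∧ φ z = Sum.inl (τ s) := by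
    intro z hz
    have h1 : ¬ (φ z).isRight := fun h => hz (mem_filter.2 ⟨mem_univ _, h⟩)
    have h2 : ∃ p, φ z = Sum.inl p := by
      rcases h : φ z with p | i
      · exact ⟨p, rfl⟩
      · rw [h] at h1
        exact absurd rfl h1
    obtain ⟨p, hp⟩ := h2
    have h3 := hφ z
    rw [hp] at h3
    obtain ⟨s, hs, h4⟩ := (hN z p).1 (inl_mem_disjSum.1 h3)
    exact ⟨s, hs, by rw [hp, h4]⟩
  let ι : B → ℕ := fun z => (Fintype.equivFin B z : ℕ)
  have hι : ∀ z w, ι z = ι w → z = w := fun z w h => (Fintype.equivFin B).injective (Fin.ext h)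
  let L : Finset B := U.filter (fun z => π z ∈ U → ι z < ι (π z))
  have hLU : L ⊆ U := filter_subset _ _
  have hLπ : ∀ z ∈ L, π z ∉ L := by
    intro z hz hz'
    have h1 := (mem_filter.1 hz).2 (hLU hz')
    have h2 := (mem_filter.1 hz').2 (by rw [hπ]; exact hLU hz)
    rw [hπ] at h2
    omega
  have hL0 : ∀ z, (z ∈ U ∨ π z ∈ U) → (z ∈ L ∨ π z ∈ L) := by
    intro z hz
    by_cases h1 : z ∈ U
    · by_cases h2 : π z ∈ U
      · rcases Nat.lt_trichotomy (ι z) (ι (π z)) with h3 | h3 | h3
        · exact Or.inl (mem_filter.2 ⟨h1, fun _ => h3⟩)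
        · exact absurd (hι _ _ h3).symm (hπ' z)
        · exact Or.inr (mem_filter.2 ⟨h2, fun _ => by rw [hπ]; exact h3⟩)
      · exact Or.inl (mem_filter.2 ⟨h1, fun h => absurd h h2⟩)
    · have h2 : π z ∈ U := hz.resolve_left h1
      exact Or.inr (mem_filter.2 ⟨h2, fun h => absurd (by rw [hπ] at h; exact h) h1⟩)
  have hL1 : ∀ z, (z ∈ L ∨ π z ∈ L) → (z ∈ U ∨ π z ∈ U) := by
    intro z hz
    rcases hz with h | h
    · exact Or.inl (hLU h)
    · exact Or.inr (hLU h)
  have hsel' : ∀ z, ∃ s, z ∉ U → Z s = z ∧ φ z = Sum.inl (τ s) := by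
    intro z
    by_cases h : z ∈ U
    · obtain ⟨s, _⟩ := Finset.card_pos.1 (lt_of_lt_of_le (by norm_num) (hZ z))
      exact ⟨s, fun h' => absurd h h'⟩
    · obtain ⟨s, h1, h2⟩ := hsel z h
      exact ⟨s, fun _ => ⟨h1, h2⟩⟩
  choose s hs using hsel'
  let S : Finset Q := (univ.filter (fun z => z ∉ U ∧ π z ∉ U)).image s
  have hS : ∀ x, x ∈ S ↔ ∃ z, z ∉ U ∧ π z ∉ U ∧ s z = x := by
    intro x
    show x ∈ (univ.filter (fun z => z ∉ U ∧ π z ∉ U)).image s ↔ _
    rw [mem_image]
    constructor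
    · rintro ⟨z, hz, h⟩
      exact ⟨z, (mem_filter.1 hz).2.1, (mem_filter.1 hz).2.2, h⟩
    · rintro ⟨z, h1, h2, h⟩
      exact ⟨z, mem_filter.2 ⟨mem_univ _, h1, h2⟩, h⟩
  have hinj : ∀ z w, z ∉ U → w ∉ U → τ (s z) = τ (s w) → z = w := by
    intro z w hz hw h
    apply hφinj
    rw [(hs z hz).2, (hs w hw).2, h]
  refine ⟨L, S, hLπ, ?_, ?_, ?_, ?_, ?_⟩
  · intro x hx
    obtain ⟨z, h1, h2, rfl⟩ := (hS x).1 hx
    rw [(hs z h1).1]
    exact ⟨fun h => h1 (hLU h), fun h => h2 (hLU h)⟩
  · intro z h1 h2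
    have h3 : ¬ (z ∈ U ∨ π z ∈ U) := fun h => by
      rcases hL0 z h with h | h
      · exact h1 h
      · exact h2 h
    push Not at h3
    exact ⟨s z, (hS _).2 ⟨z, h3.1, h3.2, rfl⟩, (hs z h3.1).1⟩
  · intro x hx y hy h
    obtain ⟨z, h1, h2, rfl⟩ := (hS x).1 hx
    obtain ⟨w, h3, h4, rfl⟩ := (hS y).1 hy
    rw [(hs z h1).1, (hs w h3).1] at h
    rw [h]
  · intro x hx y hy h
    obtain ⟨z, h1, h2, rfl⟩ := (hS x).1 hx
    obtain ⟨w, h3, h4, rfl⟩ := (hS y).1 hy
    rw [hinj z w h1 h3 h]
  · -- counting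
    let c : P → ℕ := fun p => #(univ.filter (fun s => τ s = p))
    have hc : ∀ p, c p ≤ 3 := hτ
    let X : Finset P := (S0.biUnion N).filter (fun p => c p = 3)
    have hX : 2 * d ≤ #X := by
      have h1 : 2 * #S0 ≤ ∑ p ∈ S0.biUnion N, c p := by
        have h2 : ∑ p ∈ S0.biUnion N, c p = #(univ.filter (fun s => τ s ∈ S0.biUnion N)) :=
          (fib τ _).symm
        have h3 : #(univ.filter (fun s => Z s ∈ S0)) = ∑ z ∈ S0, #(univ.filter (fun s => Z s = z)) :=
          fib Z _
        have h4 : 2 * #S0 ≤ #(univ.filter (fun s => Z s ∈ S0)) := by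
          rw [h3]
          calc 2 * #S0 = ∑ _z ∈ S0, 2 := by rw [Finset.sum_const, smul_eq_mul, mul_comm]
            _ ≤ _ := Finset.sum_le_sum (fun z _ => hZ z)
        have h5 : univ.filter (fun s => Z s ∈ S0) ⊆ univ.filter (fun s => τ s ∈ S0.biUnion N) := by
          intro x hx
          have hx' := (mem_filter.1 hx).2
          exact mem_filter.2 ⟨mem_univ _, mem_biUnion.2 ⟨Z x, hx', (hN _ _).2 ⟨x, rfl, rfl⟩⟩⟩
        rw [h2]
        exact h4.trans (card_le_card h5)
      have h6 : ∑ p ∈ S0.biUnion N, c p ≤ 2 * #(S0.biUnion N) + #X := by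
        have h7 : ∀ p ∈ S0.biUnion N, c p ≤ 2 + (if c p = 3 then 1 else 0) := by
          intro p _
          have := hc p
          split_ifs <;> omega
        calc ∑ p ∈ S0.biUnion N, c p ≤ ∑ p ∈ S0.biUnion N, (2 + (if c p = 3 then 1 else 0)) :=
              Finset.sum_le_sum h7
          _ = 2 * #(S0.biUnion N) + #X := by
              rw [Finset.sum_add_distrib, Finset.sum_const, smul_eq_mul, mul_comm,
                ← Finset.card_filter]
      omega
    -- every element of `N (S0)` is used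
    have hused : ∀ p ∈ S0.biUnion N, ∃ z, z ∉ U ∧ τ (s z) = p := by
      have h1 : S0.image φ ⊆ (S0.biUnion N).disjSum (univ : Finset (Fin d)) := by
        intro x hx
        obtain ⟨z, hz, rfl⟩ := mem_image.1 hx
        have h2 := hφ z
        rcases h3 : φ z with p | i
        · rw [h3] at h2
          exact inl_mem_disjSum.2 (mem_biUnion.2 ⟨z, hz, inl_mem_disjSum.1 h2⟩)
        · exact inr_mem_disjSum.2 (mem_univ _)
      have h2 : #((S0.biUnion N).disjSum (univ : Finset (Fin d))) ≤ #(S0.image φ) := by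
        rw [card_image_of_injective _ hφinj, card_disjSum, card_univ, Fintype.card_fin]
        omega
      have h3 := Finset.eq_of_subset_of_card_le h1 h2
      intro p hp
      have h4 : Sum.inl p ∈ S0.image φ := by
        rw [h3]
        exact inl_mem_disjSum.2 hp
      obtain ⟨z, _, hz⟩ := mem_image.1 h4
      have h5 : z ∉ U := by
        intro h
        have := (mem_filter.1 h).2
        rw [hz] at this
        simp at this
      refine ⟨z, h5, ?_⟩
      have h6 := (hs z h5).2
      rw [hz] at h6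
      exact (Sum.inl_injective h6).symm
    choose! w hw using hused
    -- the bad ones
    have hX1 : #(X.filter (fun p => π (w p) ∈ U)) ≤ #U := by
      refine Finset.card_le_card_of_injOn (fun p => π (w p)) (fun p hp => (mem_filter.1 hp).2) ?_
      intro p hp p' hp' h
      have hp1 := (mem_filter.1 (mem_filter.1 hp).1).1
      have hp1' := (mem_filter.1 (mem_filter.1 hp').1).1
      have h1 : w p = w p' := by
        have h2 : π (π (w p)) = π (π (w p')) := congrArg π h
        rwa [hπ, hπ] at h2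
      rw [← (hw p hp1).2, ← (hw p' hp1').2, h1]
    have hX2 : #(X.filter (fun p => ¬ π (w p) ∈ U)) ≤
        #(S.filter (fun s => #(univ.filter (fun s' => τ s' = τ s)) = 3)) := by
      refine Finset.card_le_card_of_injOn (fun p => s (w p)) ?_ ?_
      · intro p hp
        have hp2 := (mem_filter.1 hp).2
        have hp1 := (mem_filter.1 (mem_filter.1 hp).1).1
        have hp3 := (mem_filter.1 (mem_filter.1 hp).1).2
        refine mem_coe.2 (mem_filter.2 ⟨(hS _).2 ⟨w p, (hw p hp1).1, hp2, rfl⟩, ?_⟩)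
        rw [(hw p hp1).2]
        exact hp3
      · intro p hp p' hp' h
        have hp1 := (mem_filter.1 (mem_filter.1 hp).1).1
        have hp1' := (mem_filter.1 (mem_filter.1 hp').1).1
        have h1 : τ (s (w p)) = τ (s (w p')) := congrArg τ h
        rw [(hw p hp1).2, (hw p' hp1').2] at h1
        exact h1
    have hX3 : #(X.filter (fun p => π (w p) ∈ U)) + #(X.filter (fun p => ¬ π (w p) ∈ U)) = #X :=
      Finset.card_filter_add_card_filter_not _
    have hL2 := card_le_card hLU
    omega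

end Pool.Agent.H80C
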