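import Pool.Agent.H80C.Tau
import Pool.Agent.H80C.Sel

set_option autoImplicit false

/-!
The minus dominating function.
-/

namespace Pool.Agent.H80C

open Finset Pool.Agent.H80M Classical

variable {V : Type} [Fintype V] {G : SimpleGraph V} (hreg : ∀ v, {u | G.Adj v u}.ncard = 3)
  (htri : ∀ v, ∃ a b, G.Adj v a ∧ G.Adj v b ∧ G.Adj a b) {D : Finset V} (hD : IsMinDom G D)

include hreg htri hD in
theorem exists_fun (hρ : ∀ p, Cl G D p → ∃ ρ ∈ tau G D p, ρ ≠ p ∧ ∀ x ∈ D, G.Adj ρ x → 2 ≤ ct G D x) :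
    ∃ f : V → ℤ, (∀ v, f v = -1 ∨ f v = 0 ∨ f v = 1) ∧ (∀ v, 1 ≤ nsum G f v) ∧
      (∀ v, 0 ≤ f v → ∃ u, (u = v ∨ G.Adj v u) ∧ nsum G f u = 1) ∧ (#D : ℤ) ≤ ∑ v, f v := by
  let B := {z : V // Bad G D z}
  let Q := {p : V // Cl G D p}
  -- data on bad vertices
  have hB : ∀ z : B, ∃ z' a b, Nb3 G z.1 z' a b ∧ a ∈ D ∧ b ∈ D ∧ z' ∉ D ∧ Bad G D z' := by
    intro z
    obtain ⟨z', a, b, h1, h2, h3, h4, h5, h6⟩ := str2 hreg htri hD z.2
    exact ⟨z', a, b, h1, h2, h3, h4, h6⟩
  choose pi1 α β hB1 hα hβ hpi hpiB using hB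
  -- data on clients
  have hQ : ∀ p : Q, ∃ u z d, Bad G D z ∧ u ∈ D ∧ d ∈ D ∧ Nb3 G u z d p.1 ∧ G.Adj z d := by
    intro p
    obtain ⟨u, z, d, q, r, h1, h2, h3, h4, h5, _⟩ := cl_data hreg htri hD p.2
    exact ⟨u, z, d, h1, h2, h3, h4, h5⟩
  choose U Zf dd hZB hUD hdD hU hZd using hQ
  have hρ' : ∀ p : Q, ∃ ρ ∈ tau G D p.1, ρ ≠ p.1 ∧ ∀ x ∈ D, G.Adj ρ x → 2 ≤ ct G D x :=
    fun p => hρ p.1 p.2
  choose ρ hρτ hρne hρct using hρ'
  let π : B → B := fun z => ⟨pi1 z, hpiB z⟩
  let Z : Q → B := fun p => ⟨Zf p, hZB p⟩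
  let τ : Q → Finset V := fun p => tau G D p.1
  have hππ : ∀ z, π (π z) = z := by
    intro z
    apply Subtype.ext
    show pi1 (π z) = z.1
    have h1 := hB1 (π z)
    have h2 : G.Adj (π z).1 z.1 := (hB1 z).adj1.symm
    rcases (h1.2.2.2 z.1).1 h2 with h3 | h3 | h3
    · exact h3.symm
    · exact absurd (h3 ▸ hα (π z)) z.2.1
    · exact absurd (h3 ▸ hβ (π z)) z.2.1
  have hπne : ∀ z, π z ≠ z := by
    intro z h
    have h1 : pi1 z = z.1 := congrArg Subtype.val h
    exact (hB1 z).adj1.ne' h1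
  have hctz : ∀ z : B, ct G D z.1 = 2 := by
    intro z
    rw [ct_nb3 (hB1 z), ind_not z.2.1, ind_not (hpi z), ind_mem (hα z), ind_mem (hβ z)]; norm_num
  -- uniqueness
  have huU : ∀ (p : Q) u, u ∈ D → G.Adj p.1 u → u = U p := by
    intro p u hu hpu
    exact ct_unique p.2.2.1 hu (Or.inr hpu) (hUD p) (Or.inr (hU p).adj3.symm)
  have hUZ : ∀ (p : Q) (z : B), G.Adj (U p) z.1 → Z p = z := by
    intro p z h
    apply Subtype.ext
    rcases ((hU p).2.2.2 z.1).1 h with h1 | h1 | h1
    · exact h1.symm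
    · exact absurd (h1 ▸ hdD p) z.2.1
    · have := hctz z
      rw [h1, p.2.2.1] at this
      omega
  have hUinj : ∀ p p' : Q, U p = U p' → p = p' := by
    intro p p' h
    apply Subtype.ext
    have h1 : G.Adj (U p) p'.1 := by rw [h]; exact (hU p').adj3
    rcases ((hU p).2.2.2 p'.1).1 h1 with h2 | h2 | h2
    · have := (hZB p).2 p'.1 (Or.inl h2)
      rw [p'.2.2.1] at this
      omega
    · exact absurd (h2 ▸ hdD p) p'.2.1
    · exact h2.symm
  have hctU : ∀ p : Q, ct G D (U p) = 2 := by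
    intro p
    rw [ct_nb3 (hU p), ind_mem (hUD p), ind_not (hZB p).1, ind_mem (hdD p), ind_not p.2.1]; norm_num
  -- clients above a bad vertex
  have hcl : ∀ (z : B) u, u ∈ D → G.Adj z.1 u → ∃ p : Q, Z p = z ∧ U p = u := by
    intro z u hu hzu
    obtain ⟨d, p, h, hd, hp, hcp, _⟩ := str1 hreg hD z.2 hu hzu
    have hcl : Cl G D p := ⟨hp, hcp, u, hu, z.1, z.2, hzu.symm, h.adj3.symm⟩
    have h1 : u = U ⟨p, hcl⟩ := huU ⟨p, hcl⟩ u hu h.adj3.symm
    refine ⟨⟨p, hcl⟩, hUZ _ z ?_, h1.symm⟩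
    rw [← h1]
    exact hzu.symm
  have hZ2 : ∀ z : B, 2 ≤ #(univ.filter (fun s => Z s = z)) := by
    intro z
    obtain ⟨p, hp, hp'⟩ := hcl z (α z) (hα z) (hB1 z).adj2
    obtain ⟨q, hq, hq'⟩ := hcl z (β z) (hβ z) (hB1 z).adj3
    have h1 : 1 < #(univ.filter (fun s => Z s = z)) :=
      Finset.one_lt_card.2 ⟨p, mem_filter.2 ⟨mem_univ _, hp⟩, q, mem_filter.2 ⟨mem_univ _, hq⟩,
        fun h => (hB1 z).2.2.1 (by rw [← hp', ← hq', h])⟩
    omega
  have hτd : ∀ p : Q, #(τ p) = 3 ∧ p.1 ∈ τ p ∧ ∀ w ∈ τ p, w ∉ D ∧ ct G D w = 1 ∧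
      tau G D w = τ p ∧ ∃ e ∈ D, G.Adj w e := fun p => tau_data hreg htri hD p.2
  have hτadj : ∀ (p : Q) w w', w ∈ τ p → w' ∈ τ p → w' = w ∨ G.Adj w w' := by
    intro p w w' hw hw'
    rw [← ((hτd p).2.2 w hw).2.2.1] at hw'
    exact (mem_tau.1 hw').1
  have hfib : ∀ P : Finset V, (∃ p : Q, τ p = P) → ∀ s : Q, τ s = P → s.1 ∈ P := by
    intro P _ s hs
    rw [← hs]
    exact (hτd s).2.1
  have hτ3 : ∀ P : Finset V, #(univ.filter (fun s => τ s = P)) ≤ 3 := by
    intro P
    by_cases h : ∃ p : Q, τ p = P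
    · have h1 : #P = 3 := by
        obtain ⟨p, hp⟩ := h
        rw [← hp]
        exact (hτd p).1
      rw [← h1]
      refine Finset.card_le_card_of_injOn (fun s => s.1) (fun s hs => ?_) ?_
      · exact hfib P h s (mem_filter.1 hs).2
      · intro s _ s' _ h2
        exact Subtype.ext h2
    · rw [Finset.card_eq_zero.2]
      · norm_num
      · rw [Finset.filter_eq_empty_iff]
        intro s _ hs
        exact h ⟨s, hs⟩
  obtain ⟨L, S, hL1, hL2, hL3, hS1, hS2, hLS⟩ := select Z τ π hππ hπne hZ2 hτ3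
  let pure : Q → Prop := fun s => #(univ.filter (fun s' => τ s' = τ s)) = 3
  have hpure : ∀ s, pure s → ∀ w ∈ τ s, ∃ s' : Q, s'.1 = w := by
    intro s hs w hw
    have h1 : (univ.filter (fun s' => τ s' = τ s)).image (fun s => s.1) = τ s := by
      apply Finset.eq_of_subset_of_card_le
      · intro x hx
        obtain ⟨s', hs', rfl⟩ := mem_image.1 hx
        exact hfib _ ⟨s, rfl⟩ s' (mem_filter.1 hs').2
      · rw [Finset.card_image_of_injective _ Subtype.val_injective, (hτd s).1]
        exact hs.ge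
    rw [← h1] at hw
    obtain ⟨s', _, h2⟩ := mem_image.1 hw
    exact ⟨s', h2⟩
  -- different elements of `S` have disjoint triangles
  have hdis : ∀ s ∈ S, ∀ s' ∈ S, ∀ w, w ∈ τ s → w ∈ τ s' → s = s' := by
    intro s hs s' hs' w hw hw'
    apply hS2 s hs s' hs'
    rw [← ((hτd s).2.2 w hw).2.2.1, ← ((hτd s').2.2 w hw').2.2.1]
  let ap : Q → Finset V := fun s => if pure s then insert (Zf s) ((τ s).erase s.1) else {ρ s}
  let am : Q → Finset V := fun s => if pure s then {s.1, U s} else {s.1}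
  let Ap : Finset V := S.biUnion ap
  let Am : Finset V := L.image Subtype.val ∪ S.biUnion am
  have hAp : ∀ w, w ∈ Ap ↔ ∃ s ∈ S, (pure s ∧ (w = Zf s ∨ (w ≠ s.1 ∧ w ∈ τ s))) ∨
      (¬ pure s ∧ w = ρ s) := by
    intro w
    show w ∈ S.biUnion ap ↔ _
    rw [mem_biUnion]
    refine exists_congr (fun s => and_congr_right (fun _ => ?_))
    show w ∈ (if pure s then insert (Zf s) ((τ s).erase s.1) else {ρ s}) ↔ _
    by_cases h : pure s
    · rw [if_pos h, mem_insert, mem_erase]
      tauto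
    · rw [if_neg h, mem_singleton]
      tauto
  have hAm : ∀ w, w ∈ Am ↔ (∃ z ∈ L, z.1 = w) ∨ ∃ s ∈ S, w = s.1 ∨ (pure s ∧ w = U s) := by
    intro w
    show w ∈ L.image Subtype.val ∪ S.biUnion am ↔ _
    rw [mem_union, mem_image, mem_biUnion]
    refine or_congr Iff.rfl (exists_congr (fun s => and_congr_right (fun _ => ?_)))
    show w ∈ (if pure s then {s.1, U s} else {s.1} : Finset V) ↔ _
    by_cases h : pure s
    · rw [if_pos h, mem_insert, mem_singleton]
      tauto
    · rw [if_neg h, mem_singleton]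
      tauto
  have hApD : ∀ w ∈ Ap, w ∉ D := by
    intro w hw
    obtain ⟨s, _, h⟩ := (hAp w).1 hw
    rcases h with ⟨_, h | h⟩ | ⟨_, h⟩
    · rw [h]; exact (hZB s).1
    · exact ((hτd s).2.2 w h.2).1
    · rw [h]; exact ((hτd s).2.2 _ (hρτ s)).1
  -- `Ap` and bad vertices
  have hApB : ∀ z : B, z.1 ∈ Ap → ∃ s ∈ S, pure s ∧ Z s = z := by
    intro z hz
    obtain ⟨s, hs, h⟩ := (hAp _).1 hz
    rcases h with ⟨h0, h | h⟩ | ⟨_, h⟩
    · exact ⟨s, hs, h0, Subtype.ext h.symm⟩
    · have h1 := ((hτd s).2.2 _ h.2).2.1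
      rw [hctz z] at h1
      omega
    · have h1 := ((hτd s).2.2 _ (hρτ s)).2.1
      rw [← h, hctz z] at h1
      omega
  have hAmB : ∀ z : B, z.1 ∈ Am → z ∈ L := by
    intro z hz
    rcases (hAm _).1 hz with ⟨z', h1, h2⟩ | ⟨s, hs, h | ⟨_, h⟩⟩
    · rw [← Subtype.ext h2]; exact h1
    · have h1 := s.2.2.1
      rw [← h, hctz z] at h1
      omega
    · exact absurd (h ▸ hUD s) z.2.1
  have hAmD : ∀ w ∈ D, w ∈ Am → ∃ s ∈ S, pure s ∧ w = U s := by
    intro w hw hw'
    rcases (hAm _).1 hw' with ⟨z', h1, h2⟩ | ⟨s, hs, h | h⟩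
    · exact absurd (h2 ▸ hw) z'.2.1
    · exact absurd (h ▸ hw) s.2.1
    · exact ⟨s, hs, h⟩
  -- `Ap`, `Am` and private vertices
  have hApτ : ∀ w, ct G D w = 1 → w ∈ Ap → ∃ s ∈ S, w ≠ s.1 ∧ w ∈ τ s ∧ (¬ pure s → w = ρ s) := by
    intro w hc hw
    obtain ⟨s, hs, h⟩ := (hAp _).1 hw
    rcases h with ⟨h0, h | h⟩ | ⟨h0, h⟩
    · have := hctz (Z s)
      rw [show (Z s).1 = w from h.symm] at this
      omega
    · exact ⟨s, hs, h.1, h.2, fun h1 => absurd h0 h1⟩
    · exact ⟨s, hs, by rw [h]; exact hρne s, by rw [h]; exact hρτ s, fun _ => h⟩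
  have hAmτ : ∀ w, ct G D w = 1 → w ∈ Am → ∃ s ∈ S, w = s.1 := by
    intro w hc hw
    rcases (hAm _).1 hw with ⟨z', h1, h2⟩ | ⟨s, hs, h | ⟨_, h⟩⟩
    · have := hctz z'
      rw [h2] at this
      omega
    · exact ⟨s, hs, h⟩
    · have := hctU s
      rw [← h] at this
      omega
  let f : V → ℤ := fun w => ind D w + ind Ap w - ind Am w
  have hf : ∀ w, f w = ind D w + ind Ap w - ind Am w := fun _ => rfl
  have hfr : ∀ v, f v = -1 ∨ f v = 0 ∨ f v = 1 := by
    intro v
    rw [hf]
    by_cases h1 : v ∈ D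
    · have h2 : v ∉ Ap := fun h => hApD v h h1
      rw [ind_mem h1, ind_not h2]
      by_cases h3 : v ∈ Am
      · rw [ind_mem h3]; norm_num
      · rw [ind_not h3]; norm_num
    · rw [ind_not h1]
      by_cases h2 : v ∈ Ap
      · rw [ind_mem h2]
        by_cases h3 : v ∈ Am
        · rw [ind_mem h3]; norm_num
        · rw [ind_not h3]; norm_num
      · rw [ind_not h2]
        by_cases h3 : v ∈ Am
        · rw [ind_mem h3]; norm_num
        · rw [ind_not h3]; norm_num
  -- values
  have vD : ∀ w ∈ D, (∀ s ∈ S, pure s → w ≠ U s) → f w = 1 := by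
    intro w hw h
    have h1 : w ∉ Am := by
      intro h2
      obtain ⟨s, hs, h3, h4⟩ := hAmD w hw h2
      exact h s hs h3 h4
    rw [hf, ind_mem hw, ind_not (fun h2 => hApD w h2 hw), ind_not h1]; norm_num
  have vU : ∀ s ∈ S, pure s → f (U s) = 0 := by
    intro s hs h
    rw [hf, ind_mem (hUD s), ind_not (fun h2 => hApD _ h2 (hUD s)),
      ind_mem ((hAm _).2 (Or.inr ⟨s, hs, Or.inr ⟨h, rfl⟩⟩))]; norm_num
  have vL : ∀ z ∈ L, f z.1 = -1 := by
    intro z hz
    have h1 : z.1 ∉ Ap := by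
      intro h2
      obtain ⟨s, hs, _, h3⟩ := hApB z h2
      exact (hL2 s hs).1 (by rw [h3]; exact hz)
    rw [hf, ind_not z.2.1, ind_not h1, ind_mem ((hAm _).2 (Or.inl ⟨z, hz, rfl⟩))]; norm_num
  have vB0 : ∀ z : B, z ∉ L → 0 ≤ f z.1 := by
    intro z hz
    rw [hf, ind_not z.2.1, ind_not (fun h => hz (hAmB z h))]
    have := ind_nonneg Ap z.1
    omega
  have vB1 : ∀ s ∈ S, pure s → f (Zf s) = 1 := by
    intro s hs h
    have h1 : (Z s).1 ∉ Am := fun h2 => (hL2 s hs).1 (hAmB _ h2)
    rw [hf, ind_not (hZB s).1, ind_mem ((hAp _).2 ⟨s, hs, Or.inl ⟨h, Or.inl rfl⟩⟩), ind_not h1]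
    norm_num
  have vB2 : ∀ z : B, (∀ s ∈ S, pure s → Z s ≠ z) → z ∉ L → f z.1 = 0 := by
    intro z h hz
    have h1 : z.1 ∉ Ap := by
      intro h2
      obtain ⟨s, hs, h3, h4⟩ := hApB z h2
      exact h s hs h3 h4
    rw [hf, ind_not z.2.1, ind_not h1, ind_not (fun h2 => hz (hAmB z h2))]; norm_num
  have vS : ∀ s ∈ S, f s.1 = -1 := by
    intro s hs
    have h1 : s.1 ∉ Ap := by
      intro h2
      obtain ⟨s', hs', h3, h4, _⟩ := hApτ s.1 s.2.2.1 h2
      have := hdis s hs s' hs' s.1 (hτd s).2.1 h4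
      exact h3 (by rw [this])
    rw [hf, ind_not s.2.1, ind_not h1, ind_mem ((hAm _).2 (Or.inr ⟨s, hs, Or.inl rfl⟩))]; norm_num
  have vτn : ∀ s ∈ S, ∀ w ∈ τ s, w ≠ s.1 → w ∉ Am := by
    intro s hs w hw hne h2
    obtain ⟨s', hs', h3⟩ := hAmτ w ((hτd s).2.2 w hw).2.1 h2
    have := hdis s hs s' hs' w hw (by rw [h3]; exact (hτd s').2.1)
    exact hne (by rw [h3, this])
  have vR : ∀ s ∈ S, pure s → ∀ w ∈ τ s, w ≠ s.1 → f w = 1 := by
    intro s hs h w hw hne
    rw [hf, ind_not ((hτd s).2.2 w hw).1, ind_mem ((hAp _).2 ⟨s, hs, Or.inl ⟨h, Or.inr ⟨hne, hw⟩⟩⟩),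
      ind_not (vτn s hs w hw hne)]; norm_num
  have vρ : ∀ s ∈ S, ¬ pure s → ∀ w ∈ τ s, w ≠ s.1 → f w = if w = ρ s then 1 else 0 := by
    intro s hs h w hw hne
    rw [hf, ind_not ((hτd s).2.2 w hw).1, ind_not (vτn s hs w hw hne)]
    by_cases h1 : w = ρ s
    · rw [if_pos h1, ind_mem ((hAp _).2 ⟨s, hs, Or.inr ⟨h, h1⟩⟩)]; norm_num
    · rw [if_neg h1, ind_not]
      · norm_num
      · intro h2
        obtain ⟨s', hs', h3, h4, h5⟩ := hApτ w ((hτd s).2.2 w hw).2.1 h2
        have h6 := hdis s hs s' hs' w hw h4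
        subst h6
        exact h1 (h5 h)
  -- the sum over a triangle
  have sτ1 : ∀ s ∈ S, pure s → ∑ x ∈ τ s, f x = 1 := by
    intro s hs h
    rw [← Finset.sum_erase_add _ _ (hτd s).2.1, vS s hs,
      Finset.sum_congr rfl (fun x hx => vR s hs h x (mem_erase.1 hx).2 (mem_erase.1 hx).1),
      Finset.sum_const, Finset.card_erase_of_mem (hτd s).2.1, (hτd s).1]
    norm_num
  have sτ0 : ∀ s ∈ S, ¬ pure s → ∑ x ∈ τ s, f x = 0 := by
    intro s hs h
    rw [← Finset.sum_erase_add _ _ (hτd s).2.1, vS s hs,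
      Finset.sum_congr rfl (fun x hx => vρ s hs h x (mem_erase.1 hx).2 (mem_erase.1 hx).1),
      Finset.sum_ite_eq', if_pos (mem_erase.2 ⟨hρne s, hρτ s⟩)]
    norm_num
  -- closed neighbourhood sums in triangles
  have nτ : ∀ s ∈ S, ∀ w ∈ τ s, 1 ≤ nsum G f w ∧ (¬ pure s → nsum G f w = 1) ∧
      (w = s.1 → nsum G f w = 1) := by
    intro s hs w hw
    obtain ⟨h1, h2, h3, e, he, hwe⟩ := (hτd s).2.2 w hw
    have h4 : nsum G f w = ∑ x ∈ τ s, f x + f e := by
      rw [nsum_tau h1 h2 he hwe, h3]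
    by_cases hp : pure s
    · by_cases hws : w = s.1
      · have h5 : e = U s := huU s e he (by rw [← hws]; exact hwe)
        rw [h4, sτ1 s hs hp, h5, vU s hs hp]
        exact ⟨by norm_num, fun h => absurd hp h, fun _ => by norm_num⟩
      · obtain ⟨s', hs'⟩ := hpure s hp w hw
        have h5 : e = U s' := huU s' e he (by rw [hs']; exact hwe)
        have h6 : f e = 1 := by
          apply vD e he
          intro s'' hs'' _ h7
          have h8 : s' = s'' := hUinj _ _ (by rw [← h5, h7])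
          have h9 := hdis s hs s'' hs'' w hw (by rw [← hs', h8]; exact (hτd s'').2.1)
          exact hws (by rw [← hs', h8, h9])
        rw [h4, sτ1 s hs hp, h6]
        exact ⟨by norm_num, fun h => absurd hp h, fun h => absurd h hws⟩
    · have h6 : f e = 1 := by
        apply vD e he
        intro s'' hs'' hp'' h7
        -- `w` is the client of `U s''`
        have h8 : G.Adj (U s'') w := by rw [← h7]; exact hwe.symm
        have h9 : w = s''.1 := by
          rcases ((hU s'').2.2.2 w).1 h8 with h10 | h10 | h10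
          · have := hctz (Z s'')
            rw [show (Z s'').1 = w from h10.symm] at this
            omega
          · exact absurd (h10 ▸ hdD s'') h1
          · exact h10
        have h10 := hdis s hs s'' hs'' w hw (by rw [h9]; exact (hτd s'').2.1)
        rw [h10] at hp
        exact hp hp''
      rw [h4, sτ0 s hs hp, h6]
      exact ⟨by norm_num, fun _ => by norm_num, fun _ => by norm_num⟩
  -- bad vertices in or next to `L`
  have fα : ∀ (z : B), (z ∈ L ∨ π z ∈ L) → ∀ u ∈ D, G.Adj z.1 u → f u = 1 := by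
    intro z hz u hu hzu
    apply vD u hu
    intro s hs _ h
    have h1 : Z s = z := hUZ s z (by rw [← h]; exact hzu.symm)
    have h2 := hL2 s hs
    rw [h1] at h2
    rcases hz with hz | hz
    · exact h2.1 hz
    · exact h2.2 hz
  have tL : ∀ (z : B), (z ∈ L ∨ π z ∈ L) → nsum G f z.1 = 1 := by
    intro z hz
    rw [nsum_nb3 (hB1 z), fα z hz _ (hα z) (hB1 z).adj2, fα z hz _ (hβ z) (hB1 z).adj3]
    have key : ∀ w : B, w ∈ L → f (π w).1 = 0 := by
      intro w hw
      apply vB2 (π w)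
      · intro s hs _ h
        have h2 := (hL2 s hs).2
        rw [h, hππ] at h2
        exact h2 hw
      · exact hL1 w hw
    rcases hz with hz | hz
    · have h1 := key z hz
      rw [show (π z).1 = pi1 z from rfl] at h1
      rw [vL z hz, h1]; norm_num
    · have h1 := key (π z) hz
      rw [hππ] at h1
      have h2 := vL (π z) hz
      rw [show (π z).1 = pi1 z from rfl] at h2
      rw [h1, h2]; norm_num
  -- the neighbour of a bad vertex chosen by `S`
  have tU : ∀ s ∈ S, nsum G f (U s) = 1 := by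
    intro s hs
    rw [nsum_nb3 (hU s), vS s hs]
    have h1 : f (dd s) = 1 := by
      apply vD _ (hdD s)
      intro s' hs' _ h
      have h2 : Z s' = Z s := hUZ s' (Z s) (by rw [← h]; exact (hZd s).symm)
      have h3 := hS1 s' hs' s hs h2
      rw [h3] at h
      exact (hU s).adj2.ne' h
    rw [h1]
    by_cases hp : pure s
    · rw [vU s hs hp, vB1 s hs hp]; norm_num
    · have h2 : f (U s) = 1 := by
        apply vD _ (hUD s)
        intro s' _ hp' h
        rw [← hUinj _ _ h] at hp'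
        exact hp hp'
      have h3 : f (Z s).1 = 0 := by
        apply vB2
        · intro s' hs' hp' h
          rw [hS1 s' hs' s hs h] at hp'
          exact hp hp'
        · exact (hL2 s hs).1
      rw [show (Z s).1 = Zf s from rfl] at h3
      rw [h2, h3]; norm_num
  -- every bad vertex and its neighbours in `D` have a tight vertex in their neighbourhood
  have tz : ∀ z : B, ∃ t, nsum G f t = 1 ∧ ∀ v, (v = z.1 ∨ (v ∈ D ∧ G.Adj z.1 v)) →
      (t = v ∨ G.Adj v t) := by
    intro z
    by_cases hz : z ∈ L ∨ π z ∈ L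
    · refine ⟨z.1, tL z hz, ?_⟩
      rintro v (h | h)
      · exact Or.inl h.symm
      · exact Or.inr h.2.symm
    · push Not at hz
      obtain ⟨s, hs, hsz⟩ := hL3 z hz.1 hz.2
      have hsz' : Zf s = z.1 := congrArg Subtype.val hsz
      refine ⟨U s, tU s hs, ?_⟩
      rintro v (h | h)
      · right
        rw [h, ← hsz']
        exact (hU s).adj1.symm
      · have h1 : v ≠ pi1 z := fun e => hpi z (e ▸ h.1)
        have h2 : U s ≠ pi1 z := fun e => hpi z (e ▸ hUD s)
        have h3 : dd s ≠ pi1 z := fun e => hpi z (e ▸ hdD s)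
        have h4 : G.Adj z.1 (U s) := by rw [← hsz']; exact (hU s).adj1.symm
        have h5 : G.Adj z.1 (dd s) := by rw [← hsz']; exact hZd s
        have h6 : U s ≠ dd s := (hU s).adj2.ne
        have h7 : v = U s ∨ v = dd s := by
          rcases ((hB1 z).2.2.2 v).1 h.2 with e | e | e
          · exact absurd e h1
          · rcases ((hB1 z).2.2.2 (U s)).1 h4 with e' | e' | e'
            · exact absurd e' h2
            · exact Or.inl (by rw [e, e'])
            · rcases ((hB1 z).2.2.2 (dd s)).1 h5 with e'' | e'' | e''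
              · exact absurd e'' h3
              · exact Or.inr (by rw [e, e''])
              · exact absurd (by rw [e', e'']) h6
          · rcases ((hB1 z).2.2.2 (U s)).1 h4 with e' | e' | e'
            · exact absurd e' h2
            · rcases ((hB1 z).2.2.2 (dd s)).1 h5 with e'' | e'' | e''
              · exact absurd e'' h3
              · exact absurd (by rw [e', e'']) h6
              · exact Or.inr (by rw [e, e''])
            · exact Or.inl (by rw [e, e'])
        rcases h7 with e | e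
        · exact Or.inl e.symm
        · right; rw [e]; exact (hU s).adj2.symm
  -- bad vertices have sum at least one
  have nB : ∀ z : B, 1 ≤ nsum G f z.1 := by
    intro z
    by_cases hz : z ∈ L ∨ π z ∈ L
    · rw [tL z hz]
    · push Not at hz
      rw [nsum_nb3 (hB1 z)]
      have h1 : 0 ≤ f (pi1 z) := vB0 (π z) hz.2
      have hDn : ∀ u ∈ D, 0 ≤ f u := by
        intro u hu
        by_cases h : ∃ s ∈ S, pure s ∧ u = U s
        · obtain ⟨s, hs, hp, rfl⟩ := h
          rw [vU s hs hp]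
        · push Not at h
          rw [vD u hu (fun s hs hp => h s hs hp)]; norm_num
      by_cases hp : ∃ s ∈ S, pure s ∧ Z s = z
      · obtain ⟨s, hs, hp, hsz⟩ := hp
        have h2 : f z.1 = 1 := by
          have := vB1 s hs hp
          rw [← hsz]; exact this
        have := hDn _ (hα z)
        have := hDn _ (hβ z)
        omega
      · push Not at hp
        have h2 : ∀ u ∈ D, G.Adj z.1 u → f u = 1 := by
          intro u hu hzu
          apply vD u hu
          intro s hs hps h
          exact hp s hs hps (hUZ s z (by rw [← h]; exact hzu.symm))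
        have h3 := vB0 z hz.1
        rw [h2 _ (hα z) (hB1 z).adj2, h2 _ (hβ z) (hB1 z).adj3]
        omega
  -- neighbours in `D` of bad vertices have sum at least one
  have nU : ∀ p : Q, 1 ≤ nsum G f (U p) := by
    intro p
    by_cases hps : p ∈ S
    · rw [tU p hps]
    · have h1 : 0 ≤ f p.1 := by
        rw [hf, ind_not p.2.1]
        have h2 : p.1 ∉ Am := by
          intro h2
          obtain ⟨s, hs, h3⟩ := hAmτ p.1 p.2.2.1 h2
          exact hps (by rw [show p = s from Subtype.ext h3]; exact hs)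
        rw [ind_not h2]
        have := ind_nonneg Ap p.1
        omega
      have h2 : f (U p) = 1 := by
        apply vD _ (hUD p)
        intro s hs _ h
        exact hps (by rw [hUinj _ _ h]; exact hs)
      rw [nsum_nb3 (hU p), h2]
      by_cases hz : Z p ∈ L
      · have h3 := vL _ hz
        rw [show (Z p).1 = Zf p from rfl] at h3
        have h4 := fα (Z p) (Or.inl hz) (dd p) (hdD p) (hZd p)
        rw [h3, h4]
        omega
      · have h3 := vB0 _ hz
        rw [show (Z p).1 = Zf p from rfl] at h3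
        by_cases h4 : ∃ s ∈ S, pure s ∧ dd p = U s
        · obtain ⟨s, hs, hp', h5⟩ := h4
          have h6 : Z s = Z p := hUZ s (Z p) (by rw [← h5]; exact (hZd p).symm)
          have h7 := vB1 s hs hp'
          rw [show Zf s = Zf p from congrArg Subtype.val h6] at h7
          rw [h7, h5, vU s hs hp']
          omega
        · push Not at h4
          rw [vD _ (hdD p) (fun s hs hp' => h4 s hs hp')]
          omega
  -- classification of the remaining vertices
  have hAm4 : ∀ v, ¬ Bad G D v → (¬ (v ∈ D ∧ ∃ z : B, G.Adj z.1 v)) → (∀ s ∈ S, v ∉ τ s) →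
      ∀ w, (w = v ∨ G.Adj v w) → w ∉ Am := by
    intro v h1 h2 h3 w hw hwA
    have hw' : v = w ∨ G.Adj w v := by
      rcases hw with h | h
      · exact Or.inl h.symm
      · exact Or.inr h.symm
    rcases (hAm _).1 hwA with ⟨z, hz, h4⟩ | ⟨s, hs, h4 | ⟨_, h4⟩⟩
    · rw [← h4] at hw'
      rcases hw' with h5 | h5
      · exact h1 (by rw [h5]; exact z.2)
      · rcases ((hB1 z).2.2.2 v).1 h5 with h6 | h6 | h6
        · exact h1 (by rw [h6]; exact hpiB z)
        · exact h2 ⟨by rw [h6]; exact hα z, z, h5⟩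
        · exact h2 ⟨by rw [h6]; exact hβ z, z, h5⟩
    · rw [h4] at hw'
      by_cases hvD : v ∈ D
      · have h5 : G.Adj s.1 v := by
          rcases hw' with h5 | h5
          · exact absurd (h5 ▸ hvD) s.2.1
          · exact h5
        have h6 := huU s v hvD h5
        exact h2 ⟨hvD, Z s, by rw [h6]; exact (hU s).adj1.symm⟩
      · exact h3 s hs (mem_tau.2 ⟨hw', hvD⟩)
    · rw [h4] at hw'
      rcases hw' with h5 | h5
      · exact h2 ⟨by rw [h5]; exact hUD s, Z s, by rw [h5]; exact (hU s).adj1.symm⟩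
      · rcases ((hU s).2.2.2 v).1 h5 with h6 | h6 | h6
        · exact h1 (by rw [h6]; exact hZB s)
        · exact h2 ⟨by rw [h6]; exact hdD s, Z s, by rw [h6]; exact hZd s⟩
        · exact h3 s hs (by rw [h6]; exact (hτd s).2.1)
  have hfge : ∀ w, w ∉ Am → ind D w ≤ f w := by
    intro w hw
    rw [hf, ind_not hw]
    have := ind_nonneg Ap w
    omega
  have n4 : ∀ v, ¬ Bad G D v → (¬ (v ∈ D ∧ ∃ z : B, G.Adj z.1 v)) → (∀ s ∈ S, v ∉ τ s) →
      1 ≤ nsum G f v := by
    intro v h1 h2 h3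
    have h4 : ct G D v ≤ nsum G f v := nsum_le (fun w hw => hfge w (hAm4 v h1 h2 h3 w hw))
    exact (ct_pos hD.1 v).trans h4
  have t4 : ∀ v, ¬ Bad G D v → (¬ (v ∈ D ∧ ∃ z : B, G.Adj z.1 v)) → (∀ s ∈ S, v ∉ τ s) →
      ct G D v = 1 → nsum G f v = 1 := by
    intro v h1 h2 h3 hc
    rw [← hc]
    apply nsum_congr
    intro w hw
    have h4 : w ∉ Ap := by
      intro h4
      have hw' : v = w ∨ G.Adj w v := by
        rcases hw with h | h
        · exact Or.inl h.symm
        · exact Or.inr h.symm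
      obtain ⟨s, hs, h⟩ := (hAp _).1 h4
      have hτcase : w ∈ τ s → v ∉ D → False := by
        intro h5 h6
        apply h3 s hs
        rw [← ((hτd s).2.2 w h5).2.2.1]
        exact mem_tau.2 ⟨hw', h6⟩
      rcases h with ⟨h0, h | h⟩ | ⟨h0, h⟩
      · rw [h] at hw'
        rcases hw' with h5 | h5
        · exact h1 (by rw [h5]; exact hZB s)
        · rcases ((hB1 (Z s)).2.2.2 v).1 h5 with h6 | h6 | h6
          · exact h1 (by rw [h6]; exact hpiB _)
          · exact h2 ⟨by rw [h6]; exact hα _, Z s, h5⟩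
          · exact h2 ⟨by rw [h6]; exact hβ _, Z s, h5⟩
      · by_cases h6 : v ∈ D
        · obtain ⟨s', hs'⟩ := hpure s h0 w h.2
          have h7 : G.Adj w v := by
            rcases hw' with h7 | h7
            · exact absurd (h7 ▸ h6) ((hτd s).2.2 w h.2).1
            · exact h7
          have h8 := huU s' v h6 (by rw [hs']; exact h7)
          exact h2 ⟨h6, Z s', by rw [h8]; exact (hU s').adj1.symm⟩
        · exact hτcase h.2 h6
      · by_cases h6 : v ∈ D
        · have h7 : G.Adj (ρ s) v := by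
            rcases hw' with h7 | h7
            · rw [h] at h7
              exact absurd (h7 ▸ h6) ((hτd s).2.2 _ (hρτ s)).1
            · rw [h] at h7; exact h7
          have := hρct s v h6 h7
          omega
        · exact hτcase (by rw [h]; exact hρτ s) h6
    rw [hf, ind_not h4, ind_not (hAm4 v h1 h2 h3 w hw)]
    norm_num
  have hUof : ∀ v, v ∈ D → (∃ z : B, G.Adj z.1 v) → ∃ p : Q, U p = v := by
    rintro v hv ⟨z, hz⟩
    obtain ⟨p, _, hp⟩ := hcl z v hv hz
    exact ⟨p, hp⟩
  refine ⟨f, hfr, ?_, ?_, ?_⟩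
  · intro v
    by_cases h1 : Bad G D v
    · exact nB ⟨v, h1⟩
    by_cases h2 : v ∈ D ∧ ∃ z : B, G.Adj z.1 v
    · obtain ⟨p, hp⟩ := hUof v h2.1 h2.2
      rw [← hp]
      exact nU p
    by_cases h3 : ∀ s ∈ S, v ∉ τ s
    · exact n4 v h1 h2 h3
    · push Not at h3
      obtain ⟨s, hs, h4⟩ := h3
      exact (nτ s hs v h4).1
  · intro v _
    by_cases h1 : Bad G D v
    · obtain ⟨t, ht, h⟩ := tz ⟨v, h1⟩
      exact ⟨t, h v (Or.inl rfl), ht⟩
    by_cases h2 : v ∈ D ∧ ∃ z : B, G.Adj z.1 v
    · obtain ⟨hvD, z, hz⟩ := h2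
      obtain ⟨t, ht, h⟩ := tz z
      exact ⟨t, h v (Or.inr ⟨hvD, hz⟩), ht⟩
    by_cases h3 : ∀ s ∈ S, v ∉ τ s
    · -- a private vertex in the neighbourhood
      have h4 : ∃ t, (t = v ∨ G.Adj v t) ∧ ct G D t = 1 := by
        by_cases hvD : v ∈ D
        · exact exists_priv hD hvD
        · have h5 : ¬ ∀ w, (w = v ∨ G.Adj v w) → 2 ≤ ct G D w := fun h => h1 ⟨hvD, h⟩
          push Not at h5
          obtain ⟨t, ht, h6⟩ := h5
          have := ct_pos hD.1 t
          exact ⟨t, ht, by omega⟩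
      obtain ⟨t, ht, hct⟩ := h4
      refine ⟨t, ht, ?_⟩
      have ht' : v = t ∨ G.Adj t v := by
        rcases ht with h | h
        · exact Or.inl h.symm
        · exact Or.inr h.symm
      have e1 : ¬ Bad G D t := by
        intro h
        have := hctz ⟨t, h⟩
        change ct G D t = 2 at this
        omega
      have e2 : ¬ (t ∈ D ∧ ∃ z : B, G.Adj z.1 t) := by
        intro h
        obtain ⟨p, hp⟩ := hUof t h.1 h.2
        have := hctU p
        rw [hp] at this
        omega
      by_cases e3 : ∀ s ∈ S, t ∉ τ s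
      · exact t4 t e1 e2 e3 hct
      · push Not at e3
        obtain ⟨s, hs, e4⟩ := e3
        by_cases hp : pure s
        · exfalso
          by_cases hvD : v ∈ D
          · obtain ⟨s', hs'⟩ := hpure s hp t e4
            have h7 : G.Adj t v := by
              rcases ht' with h7 | h7
              · exact absurd (h7 ▸ hvD) ((hτd s).2.2 t e4).1
              · exact h7
            have h8 := huU s' v hvD (by rw [hs']; exact h7)
            exact h2 ⟨hvD, Z s', by rw [h8]; exact (hU s').adj1.symm⟩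
          · apply h3 s hs
            rw [← ((hτd s).2.2 t e4).2.2.1]
            exact mem_tau.2 ⟨ht', hvD⟩
        · exact (nτ s hs t e4).2.1 hp
    · push Not at h3
      obtain ⟨s, hs, h4⟩ := h3
      by_cases hp : pure s
      · exact ⟨s.1, hτadj s v s.1 h4 (hτd s).2.1, (nτ s hs s.1 (hτd s).2.1).2.2 rfl⟩
      · exact ⟨v, Or.inl rfl, (nτ s hs v h4).2.1 hp⟩
  · -- the weight
    have hsum : ∀ A : Finset V, ∑ v, ind A v = #A := by
      intro A
      unfold ind
      rw [← Finset.sum_filter, Finset.sum_const, nsmul_eq_mul, mul_one]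
      congr 2
      ext x
      simp
    have h1 : ∑ v, f v = #D + #Ap - #Am := by
      have : ∑ v, f v = ∑ v, (ind D v + ind Ap v - ind Am v) := rfl
      rw [this, Finset.sum_sub_distrib, Finset.sum_add_distrib, hsum, hsum, hsum]
    have h2 : #Am ≤ #L + ∑ s ∈ S, (1 + if pure s then 1 else 0) := by
      refine (card_union_le _ _).trans (Nat.add_le_add card_image_le ?_)
      refine card_biUnion_le.trans (Finset.sum_le_sum (fun s _ => ?_))
      show #(if pure s then {s.1, U s} else {s.1} : Finset V) ≤ _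
      by_cases h : pure s
      · rw [if_pos h, if_pos h]
        exact card_le_two
      · rw [if_neg h, if_neg h, card_singleton]
    have h3 : #Ap = ∑ s ∈ S, (1 + if pure s then 2 else 0) := by
      show #(S.biUnion ap) = _
      rw [Finset.card_biUnion]
      · refine Finset.sum_congr rfl (fun s _ => ?_)
        show #(if pure s then insert (Zf s) ((τ s).erase s.1) else {ρ s}) = _
        by_cases h : pure s
        · rw [if_pos h, if_pos h, card_insert_of_notMem, card_erase_of_mem (hτd s).2.1, (hτd s).1]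
          intro h4
          have h5 := ((hτd s).2.2 _ (mem_erase.1 h4).2).2.1
          have h6 := hctz (Z s)
          rw [show (Z s).1 = Zf s from rfl] at h6
          omega
        · rw [if_neg h, if_neg h, card_singleton]
      · intro s hs s' hs' hne
        rw [Function.onFun, Finset.disjoint_left]
        intro w hw hw'
        have hmem : ∀ t : Q, w ∈ ap t → w = Zf t ∨ w ∈ τ t := by
          intro t ht
          change w ∈ (if pure t then insert (Zf t) ((τ t).erase t.1) else {ρ t}) at ht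
          by_cases h : pure t
          · rw [if_pos h, mem_insert, mem_erase] at ht
            tauto
          · rw [if_neg h, mem_singleton] at ht
            right; rw [ht]; exact hρτ t
        have hno : ∀ t t' : Q, w = Zf t → w ∈ τ t' → False := by
          intro t t' h4 h5
          have h6 := ((hτd t').2.2 _ h5).2.1
          have h7 := hctz (Z t)
          rw [show (Z t).1 = w from h4.symm] at h7
          omega
        rcases hmem s hw with h4 | h4 <;> rcases hmem s' hw' with h5 | h5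
        · exact hne (hS1 s hs s' hs' (Subtype.ext (show Zf s = Zf s' from h4.symm.trans h5)))
        · exact hno s s' h4 h5
        · exact hno s' s h5 h4
        · exact hne (hdis s hs s' hs' w h4 h5)
    have h4 : #(S.filter (fun s => #(univ.filter (fun s' => τ s' = τ s)) = 3)) =
        ∑ s ∈ S, (if pure s then 1 else 0) := by
      rw [Finset.card_filter]
    rw [Finset.sum_add_distrib] at h2 h3
    have h5 : ∑ s ∈ S, (if pure s then 2 else 0) = 2 * ∑ s ∈ S, (if pure s then 1 else 0) := by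
      rw [Finset.mul_sum]
      refine Finset.sum_congr rfl (fun s _ => ?_)
      split_ifs <;> rfl
    rw [h4] at hLS
    rw [h5] at h3
    rw [h1]
    omega

end Pool.Agent.H80C
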