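import Pool.Agent.H80C.Fun
import Pool.Agent.H80M.Graph

set_option autoImplicit false

/-!
The choice of the minimal dominating set and the comparison of the two parameters.
-/

namespace Pool.Agent.H80C

open Finset Pool.Agent.H80M Classical

variable {V : Type} [Fintype V] {G : SimpleGraph V} (hreg : ∀ v, {u | G.Adj v u}.ncard = 3)
  (htri : ∀ v, ∃ a b, G.Adj v a ∧ G.Adj v b ∧ G.Adj a b)

include hreg htri in
/-- For a minimal dominating set with the fewest bad vertices among those of its size every client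
has a partner in its triangle whose neighbour in the set is not its own private neighbour. -/
theorem exists_rho {D : Finset V} (hD : IsMinDom G D)
    (hmin : ∀ D', IsMinDom G D' → #D' = #D →
      #(univ.filter (fun v => Bad G D v)) ≤ #(univ.filter (fun v => Bad G D' v))) :
    ∀ p, Cl G D p → ∃ ρ ∈ tau G D p, ρ ≠ p ∧ ∀ x ∈ D, G.Adj ρ x → 2 ≤ ct G D x := by
  intro p hp
  obtain ⟨u, z, d, q, r, hz, hu, hd, h, hzd, h1, hqr, hq, hr, hcq, hcr⟩ :=
    cl_data hreg htri hD hp
  have hqτ : q ∈ tau G D p := mem_tau.2 ⟨Or.inr h1.adj2, hq⟩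
  have hrτ : r ∈ tau G D p := mem_tau.2 ⟨Or.inr h1.adj3, hr⟩
  by_contra hno
  push Not at hno
  obtain ⟨x, hx, hqx, hcx⟩ := hno q hqτ h1.adj2.ne'
  obtain ⟨y, hy, hry, hcy⟩ := hno r hrτ h1.adj3.ne'
  have h2 := ct_pos hD.1 x
  have h3 := ct_pos hD.1 y
  obtain ⟨D', hD', hc, hlt⟩ := swap hreg htri hD hz hu h hd hp.1 hp.2.1 h1 hqr hq hr hcq hcr (by
    intro w hw hqr'
    rcases hqr' with h4 | h4
    · have := ct_unique hcq hx (Or.inr hqx) hw (Or.inr h4)
      rw [← this]; omega
    · have := ct_unique hcr hy (Or.inr hry) hw (Or.inr h4)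
      rw [← this]; omega)
  have h4 := hmin D' hD' hc
  have h5 := Finset.card_lt_card hlt
  omega

/-- A minus dominating function all of whose nonnegative vertices see a tight closed neighbourhood
is minimal. -/
theorem minMinus_of {f : V → ℤ} (hf1 : ∀ v, f v = -1 ∨ f v = 0 ∨ f v = 1)
    (hf2 : ∀ v, 1 ≤ nsum G f v)
    (hf3 : ∀ v, 0 ≤ f v → ∃ u, (u = v ∨ G.Adj v u) ∧ nsum G f u = 1) : IsMinMinus G f := by
  refine ⟨⟨hf1, hf2⟩, ?_⟩
  intro g hg hle
  funext v
  by_contra hne
  have hlt : g v < f v := lt_of_le_of_ne (hle v) hne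
  have h0 : 0 ≤ f v := by
    rcases hg.1 v with h | h | h <;> rcases hf1 v with h' | h' | h' <;> omega
  obtain ⟨u, hu1, hu2⟩ := hf3 v h0
  have h1 : nsum G g u < nsum G f u := by
    unfold nsum
    apply Finset.sum_lt_sum (fun w _ => hle w)
    refine ⟨v, ?_, hlt⟩
    rw [mem_filter]
    refine ⟨mem_univ _, ?_⟩
    rcases hu1 with h | h
    · exact Or.inl h.symm
    · exact Or.inr h.symm
  have h2 := hg.2 u
  omega

include hreg htri in
theorem gam_le_of : (Gam G : ℤ) ≤ GamM G := by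
  -- the maximum minimal dominating sets
  have hne : {k | ∃ D : Finset V, IsMinDom G D ∧ D.card = k}.Nonempty := by
    obtain ⟨D, hD⟩ := exists_minDom G
    exact ⟨D.card, D, hD, rfl⟩
  have hbd : BddAbove {k | ∃ D : Finset V, IsMinDom G D ∧ D.card = k} := by
    refine ⟨Fintype.card V, ?_⟩
    rintro k ⟨D, _, rfl⟩
    exact Finset.card_le_univ D
  obtain ⟨D0, hD0, hcard0⟩ := Nat.sSup_mem hne hbd
  -- one with the fewest bad vertices
  obtain ⟨D, hD, hmin⟩ := Finset.exists_min_image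
    (univ.filter (fun D : Finset V => IsMinDom G D ∧ #D = #D0))
    (fun D => #(univ.filter (fun v => Bad G D v))) ⟨D0, mem_filter.2 ⟨mem_univ _, hD0, rfl⟩⟩
  obtain ⟨-, hDm, hDc⟩ := mem_filter.1 hD
  have hρ := exists_rho hreg htri hDm (fun D' hD' hc =>
    hmin D' (mem_filter.2 ⟨mem_univ _, hD', hc.trans hDc⟩))
  obtain ⟨f, hf1, hf2, hf3, hf4⟩ := exists_fun hreg htri hDm hρ
  have hfmin : IsMinMinus G f := minMinus_of hf1 hf2 hf3
  have hbdd : BddAbove {k : ℤ | ∃ f : V → ℤ, IsMinMinus G f ∧ ∑ v, f v = k} := by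
    refine ⟨Fintype.card V, ?_⟩
    rintro k ⟨g, hg, rfl⟩
    calc ∑ v, g v ≤ ∑ _v : V, (1 : ℤ) := by
          apply Finset.sum_le_sum
          intro v _
          rcases hg.1.1 v with h | h | h <;> rw [h] <;> norm_num
      _ = Fintype.card V := by simp
  have h1 : ∑ v, f v ≤ GamM G := le_csSup hbdd ⟨f, hfmin, rfl⟩
  have h2 : #D = Gam G := by rw [hDc]; exact hcard0
  rw [← h2]
  exact hf4.trans h1

end Pool.Agent.H80C
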