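import Mathlib
import Pool.Agent.H80M.Defs

set_option autoImplicit false

/-!
Cubic graphs in which every vertex lies on a triangle: the vertices that prevent the indicator
function of a minimal dominating set from being a minimal minus dominating function.
-/

namespace Pool.Agent.H80C

open Finset Pool.Agent.H80M Classical

variable {V : Type} [Fintype V]

/-- the neighbours of `v` are the three vertices `a`, `b`, `c` -/
def Nb3 (G : SimpleGraph V) (v a b c : V) : Prop :=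
  a ≠ b ∧ a ≠ c ∧ b ≠ c ∧ ∀ w, G.Adj v w ↔ w = a ∨ w = b ∨ w = c

/-- indicator function -/
noncomputable def ind (D : Finset V) (w : V) : ℤ := if w ∈ D then 1 else 0

/-- number of elements of `D` in the closed neighbourhood -/
noncomputable def ct (G : SimpleGraph V) (D : Finset V) (v : V) : ℤ := nsum G (ind D) v

lemma ind_mem {D : Finset V} {w : V} (h : w ∈ D) : ind D w = 1 := if_pos h
lemma ind_not {D : Finset V} {w : V} (h : w ∉ D) : ind D w = 0 := if_neg h
lemma ind_nonneg (D : Finset V) (w : V) : 0 ≤ ind D w := by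
  unfold ind; split_ifs <;> norm_num
lemma ind_le (D : Finset V) (w : V) : ind D w ≤ 1 := by
  unfold ind; split_ifs <;> norm_num

section basic
variable {G : SimpleGraph V}

lemma nsum_add (f g : V → ℤ) (v : V) : nsum G (fun w => f w + g w) v = nsum G f v + nsum G g v := by
  unfold nsum; exact Finset.sum_add_distrib

lemma nsum_sub (f g : V → ℤ) (v : V) : nsum G (fun w => f w - g w) v = nsum G f v - nsum G g v := by
  unfold nsum; exact Finset.sum_sub_distrib _ _

lemma nsum_le {f g : V → ℤ} {v : V} (h : ∀ w, (w = v ∨ G.Adj v w) → f w ≤ g w) :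
    nsum G f v ≤ nsum G g v := by
  unfold nsum
  exact Finset.sum_le_sum (fun w hw => h w (mem_filter.1 hw).2)

lemma nsum_congr {f g : V → ℤ} {v : V} (h : ∀ w, (w = v ∨ G.Adj v w) → f w = g w) :
    nsum G f v = nsum G g v := by
  unfold nsum
  exact Finset.sum_congr rfl (fun w hw => h w (mem_filter.1 hw).2)

lemma nsum_single (x v : V) :
    nsum G (fun w => if w = x then 1 else 0) v = if (x = v ∨ G.Adj v x) then 1 else 0 := by
  unfold nsum
  rw [Finset.sum_ite_eq']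
  simp only [mem_filter, mem_univ, true_and]

lemma ct_eq (D : Finset V) (v : V) :
    ct G D v = #(D.filter (fun u => u = v ∨ G.Adj v u)) := by
  unfold ct nsum ind
  rw [← Finset.sum_filter, Finset.sum_const, nsmul_eq_mul, mul_one]
  congr 2
  ext w
  simp only [mem_filter, mem_univ, true_and]
  tauto

lemma nb3_of (hreg : ∀ v, {u | G.Adj v u}.ncard = 3) {v a : V} (h : G.Adj v a) :
    ∃ b c, Nb3 G v a b c := by
  obtain ⟨x, y, z, hxy, hxz, hyz, hs⟩ := Set.ncard_eq_three.1 (hreg v)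
  have hm : ∀ w, G.Adj v w ↔ w = x ∨ w = y ∨ w = z := by
    intro w
    have : w ∈ {u | G.Adj v u} ↔ w ∈ ({x, y, z} : Set V) := by rw [hs]
    simpa using this
  rcases (hm a).1 h with rfl | rfl | rfl
  · exact ⟨y, z, hxy, hxz, hyz, hm⟩
  · exact ⟨x, z, hxy.symm, hyz, hxz, fun w => by rw [hm w]; tauto⟩
  · exact ⟨x, y, hxz.symm, hyz.symm, hxy, fun w => by rw [hm w]; tauto⟩

lemma nb3_of2 (hreg : ∀ v, {u | G.Adj v u}.ncard = 3) {v a b : V} (h : G.Adj v a)
    (h' : G.Adj v b) (hab : a ≠ b) : ∃ c, Nb3 G v a b c := by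
  obtain ⟨x, y, h1⟩ := nb3_of hreg h
  rcases (h1.2.2.2 b).1 h' with h2 | h2 | h2
  · exact absurd h2.symm hab
  · subst h2
    exact ⟨y, h1⟩
  · subst h2
    exact ⟨x, h1.2.1, h1.1, h1.2.2.1.symm, fun w => by rw [h1.2.2.2 w]; tauto⟩

lemma Nb3.swap {v a b c : V} (h : Nb3 G v a b c) : Nb3 G v a c b :=
  ⟨h.2.1, h.1, h.2.2.1.symm, fun w => by rw [h.2.2.2 w]; tauto⟩

lemma Nb3.rot {v a b c : V} (h : Nb3 G v a b c) : Nb3 G v b c a :=
  ⟨h.2.2.1, h.1.symm, h.2.1.symm, fun w => by rw [h.2.2.2 w]; tauto⟩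

lemma Nb3.adj1 {v a b c : V} (h : Nb3 G v a b c) : G.Adj v a := (h.2.2.2 a).2 (Or.inl rfl)
lemma Nb3.adj2 {v a b c : V} (h : Nb3 G v a b c) : G.Adj v b := (h.2.2.2 b).2 (Or.inr (Or.inl rfl))
lemma Nb3.adj3 {v a b c : V} (h : Nb3 G v a b c) : G.Adj v c := (h.2.2.2 c).2 (Or.inr (Or.inr rfl))

lemma nsum_nb3 {v a b c : V} (h : Nb3 G v a b c) (f : V → ℤ) :
    nsum G f v = f v + f a + f b + f c := by
  unfold nsum
  have hs : univ.filter (fun u => u = v ∨ G.Adj v u) = {v, a, b, c} := by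
    ext w
    simp only [mem_filter, mem_univ, true_and, mem_insert, mem_singleton]
    rw [h.2.2.2 w]
  rw [hs, Finset.sum_insert, Finset.sum_insert, Finset.sum_insert, Finset.sum_singleton]
  · ring
  · rw [mem_singleton]; exact h.2.2.1
  · rw [mem_insert, mem_singleton]
    rintro (h1 | h1)
    · exact h.1 h1
    · exact h.2.1 h1
  · rw [mem_insert, mem_insert, mem_singleton]
    rintro (h1 | h1 | h1)
    · exact h.adj1.ne h1
    · exact h.adj2.ne h1
    · exact h.adj3.ne h1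

lemma ct_nb3 {D : Finset V} {v a b c : V} (h : Nb3 G v a b c) :
    ct G D v = ind D v + ind D a + ind D b + ind D c := nsum_nb3 h _

lemma ct_pos {D : Finset V} (hD : IsDom G D) (v : V) : 1 ≤ ct G D v := by
  rw [ct_eq]
  obtain ⟨u, hu, h⟩ := hD v
  have : 0 < #(D.filter (fun u => u = v ∨ G.Adj v u)) := Finset.card_pos.2 ⟨u, mem_filter.2 ⟨hu, h⟩⟩
  omega

lemma dom_of_ct {D : Finset V} (h : ∀ v, 1 ≤ ct G D v) : IsDom G D := by
  intro v
  have h1 := h v
  rw [ct_eq] at h1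
  have h2 : 0 < #(D.filter (fun u => u = v ∨ G.Adj v u)) := by omega
  obtain ⟨u, hu⟩ := Finset.card_pos.1 h2
  exact ⟨u, (mem_filter.1 hu).1, (mem_filter.1 hu).2⟩

lemma ct_unique {D : Finset V} {w d d' : V} (h : ct G D w = 1) (hd : d ∈ D)
    (h1 : d = w ∨ G.Adj w d) (hd' : d' ∈ D) (h2 : d' = w ∨ G.Adj w d') : d = d' := by
  rw [ct_eq] at h
  have h3 : #(D.filter (fun u => u = w ∨ G.Adj w u)) ≤ 1 := by omega
  exact Finset.card_le_one.1 h3 d (mem_filter.2 ⟨hd, h1⟩) d' (mem_filter.2 ⟨hd', h2⟩)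

lemma two_le_ct {D : Finset V} {w d d' : V} (hd : d ∈ D)
    (h1 : d = w ∨ G.Adj w d) (hd' : d' ∈ D) (h2 : d' = w ∨ G.Adj w d') (hne : d ≠ d') :
    2 ≤ ct G D w := by
  rw [ct_eq]
  have h3 : 1 < #(D.filter (fun u => u = w ∨ G.Adj w u)) :=
    Finset.one_lt_card.2 ⟨d, mem_filter.2 ⟨hd, h1⟩, d', mem_filter.2 ⟨hd', h2⟩, hne⟩
  omega

lemma exists_priv {D : Finset V} (hD : IsMinDom G D) {d : V} (hd : d ∈ D) :
    ∃ w, (w = d ∨ G.Adj d w) ∧ ct G D w = 1 := by
  have h2 := hD.2 (D.erase d) (Finset.erase_ssubset hd)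
  unfold IsDom at h2
  push Not at h2
  obtain ⟨w, hw⟩ := h2
  have h3 : ∀ u ∈ D, (u = w ∨ G.Adj w u) → u = d := by
    intro u hu hwu
    by_contra hne
    have h4 := hw u (Finset.mem_erase.2 ⟨hne, hu⟩)
    rcases hwu with h5 | h5
    · exact h4.1 h5
    · exact h4.2 h5
  obtain ⟨u, hu, h⟩ := hD.1 w
  have h5 := h3 u hu h
  subst h5
  refine ⟨w, ?_, ?_⟩
  · rcases h with h | h
    · exact Or.inl h.symm
    · exact Or.inr h.symm
  · rw [ct_eq]
    have : D.filter (fun x => x = w ∨ G.Adj w x) = {u} := by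
      ext x
      rw [mem_filter, mem_singleton]
      constructor
      · intro hx; exact h3 x hx.1 hx.2
      · rintro rfl; exact ⟨hu, h⟩
    rw [this]
    simp

lemma minDom_of {D : Finset V} (h : IsDom G D)
    (h' : ∀ d ∈ D, ∃ w, (w = d ∨ G.Adj d w) ∧ ct G D w = 1) : IsMinDom G D := by
  refine ⟨h, fun D' hD' hdom => ?_⟩
  obtain ⟨d, hd, hd'⟩ := Finset.exists_of_ssubset hD'
  obtain ⟨w, hw, hc⟩ := h' d hd
  obtain ⟨u, hu, huw⟩ := hdom w
  have h1 : d = w ∨ G.Adj w d := by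
    rcases hw with h | h
    · exact Or.inl h.symm
    · exact Or.inr h.symm
  have := ct_unique hc (hD'.1 hu) huw hd h1
  rw [this] at hu
  exact hd' hu

end basic

/-- the vertices at which the indicator function of `D` can be lowered -/
def Bad (G : SimpleGraph V) (D : Finset V) (z : V) : Prop :=
  z ∉ D ∧ ∀ w, (w = z ∨ G.Adj z w) → 2 ≤ ct G D w

section str
variable {G : SimpleGraph V} (hreg : ∀ v, {u | G.Adj v u}.ncard = 3)
  (htri : ∀ v, ∃ a b, G.Adj v a ∧ G.Adj v b ∧ G.Adj a b) {D : Finset V} (hD : IsMinDom G D)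

include hreg hD in
/-- the neighbours in `D` of a bad vertex -/
lemma str1 {z u : V} (hz : Bad G D z) (hu : u ∈ D) (hzu : G.Adj z u) :
    ∃ d p, Nb3 G u z d p ∧ d ∈ D ∧ p ∉ D ∧ ct G D p = 1 ∧ ct G D u = 2 := by
  have key : ∀ b c, Nb3 G u z b c → ct G D c = 1 →
      ∃ d p, Nb3 G u z d p ∧ d ∈ D ∧ p ∉ D ∧ ct G D p = 1 ∧ ct G D u = 2 := by
    intro b c h hc
    have hcD : c ∉ D := by
      intro hcD
      have := two_le_ct (G := G) (D := D) (w := c) hcD (Or.inl rfl) hu (Or.inr h.adj3.symm)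
        h.adj3.ne'
      omega
    have h1 := hz.2 u (Or.inr hzu)
    have h2 := ct_nb3 (D := D) h
    rw [ind_mem hu, ind_not hz.1, ind_not hcD] at h2
    have hb : b ∈ D := by
      by_contra hb
      rw [ind_not hb] at h2
      omega
    rw [ind_mem hb] at h2
    exact ⟨b, c, h, hb, hcD, hc, by rw [h2]; norm_num⟩
  obtain ⟨b, c, h⟩ := nb3_of hreg hzu.symm
  obtain ⟨w, hw, hc⟩ := exists_priv hD hu
  rcases hw with hw | hw
  · rw [hw] at hc
    have := hz.2 u (Or.inr hzu)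
    omega
  · rcases (h.2.2.2 w).1 hw with h1 | h1 | h1
    · rw [h1] at hc
      have := hz.2 z (Or.inl rfl)
      omega
    · rw [h1] at hc
      exact key c b h.swap hc
    · rw [h1] at hc
      exact key b c h hc

include hreg hD htri in
/-- the neighbourhood of a bad vertex -/
lemma str2 {z : V} (hz : Bad G D z) :
    ∃ z' u u', Nb3 G z z' u u' ∧ u ∈ D ∧ u' ∈ D ∧ z' ∉ D ∧ G.Adj u u' ∧ Bad G D z' := by
  obtain ⟨w1, w2, h1, h2, h12⟩ := htri z
  obtain ⟨w3, h3⟩ := nb3_of2 hreg h1 h2 h12.ne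
  have key : ∀ a b, G.Adj z a → G.Adj z b → G.Adj a b → a ∈ D → b ∈ D := by
    intro a b ha hb hab haD
    obtain ⟨d, p, h, hd, hp, hcp, _⟩ := str1 hreg hD hz haD ha
    rcases (h.2.2.2 b).1 hab with h4 | h4 | h4
    · exact absurd h4 hb.ne'
    · rw [h4]; exact hd
    · have := hz.2 b (Or.inr hb)
      rw [h4] at this
      omega
  have hw1 : w1 ∈ D := by
    by_contra hn
    have hn2 : w2 ∉ D := fun h => hn (key w2 w1 h2 h1 h12.symm h)
    have h4 := ct_nb3 (D := D) h3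
    rw [ind_not hz.1, ind_not hn, ind_not hn2] at h4
    have h5 := hz.2 z (Or.inl rfl)
    have h6 := ind_le D w3
    omega
  have hw2 : w2 ∈ D := key w1 w2 h1 h2 h12 hw1
  -- `w3` is not adjacent to `w1`, `w2` unless it is a private neighbour
  have hadj : ∀ a b, G.Adj z a → G.Adj z b → G.Adj a b → a ∈ D → b ∈ D → a ≠ w3 → b ≠ w3 →
      G.Adj w3 a → w3 ∉ D ∧ ct G D w3 = 1 := by
    intro a b ha hb hab haD hbD hne hne' h
    obtain ⟨d, p, h4, hd, hp, hcp, _⟩ := str1 hreg hD hz haD ha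
    have hbd : b = d := by
      rcases (h4.2.2.2 b).1 hab with h5 | h5 | h5
      · exact absurd h5 hb.ne'
      · exact h5
      · rw [h5] at hbD; exact absurd hbD hp
    rcases (h4.2.2.2 w3).1 h.symm with h5 | h5 | h5
    · exact absurd h5 h3.adj3.ne'
    · rw [← hbd] at h5
      exact absurd h5.symm hne'
    · rw [h5]; exact ⟨hp, hcp⟩
  have hc3 := hz.2 w3 (Or.inr h3.adj3)
  have hn1 : ¬ G.Adj w3 w1 := by
    intro h
    have := (hadj w1 w2 h1 h2 h12 hw1 hw2 h3.2.1 h3.2.2.1 h).2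
    omega
  have hn2 : ¬ G.Adj w3 w2 := by
    intro h
    have := (hadj w2 w1 h2 h1 h12.symm hw2 hw1 h3.2.2.1 h3.2.1 h).2
    omega
  have hw3 : w3 ∉ D := by
    intro hw3
    obtain ⟨d, p, h4, hd, hp, hcp, _⟩ := str1 hreg hD hz hw3 h3.adj3
    have hzd : ¬ G.Adj z d := by
      intro h
      rcases (h3.2.2.2 d).1 h with h5 | h5 | h5
      · exact hn1 (h5 ▸ h4.adj2)
      · exact hn2 (h5 ▸ h4.adj2)
      · exact h4.adj2.ne h5.symm
    have hzp : ¬ G.Adj z p := by
      intro h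
      have := hz.2 p (Or.inr h)
      omega
    have hdp : ¬ G.Adj d p := by
      intro h
      have := ct_unique hcp hd (Or.inr h.symm) hw3 (Or.inr h4.adj3.symm)
      exact h4.adj2.ne this.symm
    obtain ⟨a, b, ha, hb, hab⟩ := htri w3
    rcases (h4.2.2.2 a).1 ha with h5 | h5 | h5 <;> rcases (h4.2.2.2 b).1 hb with h6 | h6 | h6 <;>
      rw [h5, h6] at hab
    · exact hab.ne rfl
    · exact hzd hab
    · exact hzp hab
    · exact hzd hab.symm
    · exact hab.ne rfl
    · exact hdp hab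
    · exact hzp hab.symm
    · exact hdp hab.symm
    · exact hab.ne rfl
  refine ⟨w3, w1, w2, ⟨h3.2.1.symm, h3.2.2.1.symm, h3.1, fun w => by rw [h3.2.2.2 w]; tauto⟩,
    hw1, hw2, hw3, h12, hw3, ?_⟩
  obtain ⟨a, b, h4⟩ := nb3_of hreg h3.adj3.symm
  have h5 := ct_nb3 (D := D) h4
  rw [ind_not hw3, ind_not hz.1] at h5
  have haD : a ∈ D := by
    by_contra h
    rw [ind_not h] at h5
    have := ind_le D b
    omega
  have hbD : b ∈ D := by
    by_contra h
    rw [ind_not h] at h5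
    have := ind_le D a
    omega
  have hza : ∀ x, x ∈ D → G.Adj w3 x → ¬ G.Adj z x := by
    intro x hx hwx h
    rcases (h3.2.2.2 x).1 h with h6 | h6 | h6
    · exact hn1 (h6 ▸ hwx)
    · exact hn2 (h6 ▸ hwx)
    · exact hw3 (h6 ▸ hx)
  have hab : G.Adj a b := by
    obtain ⟨x, y, hx, hy, hxy⟩ := htri w3
    rcases (h4.2.2.2 x).1 hx with h5 | h5 | h5 <;> rcases (h4.2.2.2 y).1 hy with h6 | h6 | h6 <;>
      rw [h5, h6] at hxy
    · exact absurd rfl hxy.ne
    · exact absurd hxy (hza a haD h4.adj2)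
    · exact absurd hxy (hza b hbD h4.adj3)
    · exact absurd hxy.symm (hza a haD h4.adj2)
    · exact absurd rfl hxy.ne
    · exact hxy
    · exact absurd hxy.symm (hza b hbD h4.adj3)
    · exact hxy.symm
    · exact absurd rfl hxy.ne
  intro w hw
  rcases hw with hw | hw
  · rw [hw]; exact hc3
  · rcases (h4.2.2.2 w).1 hw with h6 | h6 | h6
    · rw [h6]; exact hz.2 z (Or.inl rfl)
    · rw [h6]; exact two_le_ct haD (Or.inl rfl) hbD (Or.inr hab) hab.ne
    · rw [h6]; exact two_le_ct hbD (Or.inl rfl) haD (Or.inr hab.symm) hab.ne'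

include hreg hD htri in
/-- the private neighbour of a neighbour of a bad vertex lies on a triangle of private vertices -/
lemma str3 {z u d p : V} (hz : Bad G D z) (hu : u ∈ D) (h : Nb3 G u z d p) (hd : d ∈ D)
    (hp : p ∉ D) (hcp : ct G D p = 1) :
    ∃ q r, Nb3 G p u q r ∧ G.Adj q r ∧ q ∉ D ∧ r ∉ D ∧ ct G D q = 1 ∧ ct G D r = 1 := by
  obtain ⟨q, r, h1⟩ := nb3_of hreg h.adj3.symm
  have hout : ∀ x, G.Adj p x → x ≠ u → x ∉ D := by
    intro x hx hne hxD
    exact hne (ct_unique hcp hxD (Or.inr hx) hu (Or.inr h.adj3.symm))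
  have hq : q ∉ D := hout q h1.adj2 h1.1.symm
  have hr : r ∉ D := hout r h1.adj3 h1.2.1.symm
  have hux : ∀ x, G.Adj p x → x ≠ u → ¬ G.Adj u x := by
    intro x hx hne hux
    rcases (h.2.2.2 x).1 hux with h2 | h2 | h2
    · rw [h2] at hx
      have := hz.2 p (Or.inr hx.symm)
      omega
    · exact hout x hx hne (h2 ▸ hd)
    · exact hx.ne h2.symm
  have hqr : G.Adj q r := by
    obtain ⟨x, y, hx, hy, hxy⟩ := htri p
    rcases (h1.2.2.2 x).1 hx with h5 | h5 | h5 <;> rcases (h1.2.2.2 y).1 hy with h6 | h6 | h6 <;>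
      rw [h5, h6] at hxy
    · exact absurd rfl hxy.ne
    · exact absurd hxy (hux q h1.adj2 h1.1.symm)
    · exact absurd hxy (hux r h1.adj3 h1.2.1.symm)
    · exact absurd hxy.symm (hux q h1.adj2 h1.1.symm)
    · exact absurd rfl hxy.ne
    · exact hxy
    · exact absurd hxy.symm (hux r h1.adj3 h1.2.1.symm)
    · exact hxy.symm
    · exact absurd rfl hxy.ne
  have hone : ∀ x y, G.Adj x p → G.Adj x y → p ≠ y → x ∉ D → y ∉ D → ct G D x = 1 := by
    intro x y hxp hxy hpy hx hy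
    obtain ⟨e, h2⟩ := nb3_of2 hreg hxp hxy hpy
    have h3 := ct_nb3 (D := D) h2
    rw [ind_not hx, ind_not hp, ind_not hy] at h3
    have h4 := ct_pos hD.1 x
    have h5 := ind_le D e
    omega
  exact ⟨q, r, h1, hqr, hq, hr, hone q r h1.adj2.symm hqr h1.adj3.ne hq hr,
    hone r q h1.adj3.symm hqr.symm h1.adj2.ne hr hq⟩

end str

end Pool.Agent.H80C
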