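import Pool.Agent.H80C.Str

set_option autoImplicit false

/-!
Exchanging a neighbour of a bad vertex for its private neighbour.
-/

namespace Pool.Agent.H80C

open Finset Pool.Agent.H80M Classical

variable {V : Type} [Fintype V] {G : SimpleGraph V} (hreg : ∀ v, {u | G.Adj v u}.ncard = 3)
  (htri : ∀ v, ∃ a b, G.Adj v a ∧ G.Adj v b ∧ G.Adj a b) {D : Finset V} (hD : IsMinDom G D)

include hreg in
/-- the third neighbour of a private vertex of a private triangle is in `D` -/
lemma third {q a b : V} (ha : G.Adj q a) (hb : G.Adj q b) (hab : a ≠ b) (hq : q ∉ D) (haD : a ∉ D)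
    (hbD : b ∉ D) (hc : ct G D q = 1) : ∃ e, Nb3 G q a b e ∧ e ∈ D := by
  obtain ⟨e, h⟩ := nb3_of2 hreg ha hb hab
  refine ⟨e, h, ?_⟩
  by_contra he
  have h1 := ct_nb3 (D := D) h
  rw [ind_not hq, ind_not haD, ind_not hbD, ind_not he] at h1
  omega

include hreg htri hD in
/-- the two neighbours in `D` of a bad vertex are adjacent -/
lemma str4 {z u d p : V} (hz : Bad G D z) (hu : u ∈ D) (h : Nb3 G u z d p) (hd : d ∈ D)
    (hp : p ∉ D) : G.Adj z d ∧ ct G D z = 2 ∧ ct G D d = 2 := by
  obtain ⟨z', a, b, h1, ha, hb, hz', hab, _⟩ := str2 hreg htri hD hz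
  have hct : ct G D z = 2 := by
    rw [ct_nb3 h1, ind_not hz.1, ind_not hz', ind_mem ha, ind_mem hb]; norm_num
  have key : ∀ x y, x ∈ D → y ∈ D → G.Adj z x → G.Adj z y → G.Adj x y → u = x → d = y := by
    intro x y hx hy hzx hzy hxy hux
    rw [← hux] at hxy
    rcases (h.2.2.2 y).1 hxy with h2 | h2 | h2
    · exact absurd h2 hzy.ne'
    · exact h2.symm
    · exact absurd (h2 ▸ hy) hp
  have hzd : G.Adj z d := by
    rcases (h1.2.2.2 u).1 h.adj1.symm with h2 | h2 | h2
    · exact absurd (h2 ▸ hu) hz'
    · rw [key a b ha hb h1.adj2 h1.adj3 hab h2]; exact h1.adj3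
    · rw [key b a hb ha h1.adj3 h1.adj2 hab.symm h2]; exact h1.adj2
  obtain ⟨_, _, _, _, _, _, h3⟩ := str1 hreg hD hz hd hzd
  exact ⟨hzd, hct, h3⟩

include hreg htri hD in
theorem swap {z u d p q r : V} (hz : Bad G D z) (hu : u ∈ D) (h : Nb3 G u z d p) (hd : d ∈ D)
    (hp : p ∉ D) (hcp : ct G D p = 1) (h1 : Nb3 G p u q r) (hqr : G.Adj q r) (hq : q ∉ D)
    (hr : r ∉ D) (hcq : ct G D q = 1) (hcr : ct G D r = 1)
    (hone : ∀ x ∈ D, (G.Adj q x ∨ G.Adj r x) → ct G D x = 1) :
    ∃ D', IsMinDom G D' ∧ #D' = #D ∧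
      univ.filter (fun v => Bad G D' v) ⊂ univ.filter (fun v => Bad G D v) := by
  obtain ⟨hzd, hcz, hcd⟩ := str4 hreg htri hD hz hu h hd hp
  obtain ⟨_, _, _, _, _, _, hcu⟩ := str1 hreg hD hz hu h.adj1.symm
  have hind : ∀ w, ind (insert p (D.erase u)) w =
      (ind D w - (if w = u then 1 else 0)) + (if w = p then 1 else 0) := by
    intro w
    unfold ind
    by_cases hwp : w = p
    · rw [hwp, if_pos (mem_insert_self _ _), if_neg hp, if_neg h.adj3.ne', if_pos rfl]; norm_num
    · by_cases hwu : w = u
      · rw [hwu, if_pos hu, if_pos rfl, if_neg h.adj3.ne, if_neg]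
        · norm_num
        · rw [mem_insert, mem_erase]
          rintro (h2 | h2)
          · exact h.adj3.ne h2
          · exact h2.1 rfl
      · rw [if_neg hwp, if_neg hwu]
        by_cases hwD : w ∈ D
        · rw [if_pos hwD, if_pos (mem_insert_of_mem (mem_erase.2 ⟨hwu, hwD⟩))]; norm_num
        · rw [if_neg hwD, if_neg]
          · norm_num
          · rw [mem_insert, mem_erase]
            rintro (h2 | h2)
            · exact hwp h2
            · exact hwD h2.2
  have hct : ∀ v, ct G (insert p (D.erase u)) v = (ct G D v - (if (u = v ∨ G.Adj v u) then 1 else 0))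
      + (if (p = v ∨ G.Adj v p) then 1 else 0) := by
    intro v
    rw [← nsum_single (G := G) u v, ← nsum_single (G := G) p v]
    unfold ct
    rw [← nsum_sub, ← nsum_add]
    exact nsum_congr (fun w _ => hind w)
  have hNu : ∀ v, (u = v ∨ G.Adj v u) ↔ (v = u ∨ v = z ∨ v = d ∨ v = p) := by
    intro v
    rw [G.adj_comm v u, h.2.2.2 v]
    constructor
    · rintro (h2 | h2)
      · exact Or.inl h2.symm
      · exact Or.inr h2
    · rintro (h2 | h2)
      · exact Or.inl h2.symm
      · exact Or.inr h2
  have hNp : ∀ v, (p = v ∨ G.Adj v p) ↔ (v = p ∨ v = u ∨ v = q ∨ v = r) := by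
    intro v
    rw [G.adj_comm v p, h1.2.2.2 v]
    constructor
    · rintro (h2 | h2)
      · exact Or.inl h2.symm
      · exact Or.inr h2
    · rintro (h2 | h2)
      · exact Or.inl h2.symm
      · exact Or.inr h2
  have hzu : z ≠ u := h.adj1.ne'
  have hzp : z ≠ p := h.2.1
  have hzq : z ≠ q := fun e => by rw [e] at hcz; omega
  have hzr : z ≠ r := fun e => by rw [e] at hcz; omega
  have hdu : d ≠ u := h.adj2.ne'
  have hdp : d ≠ p := fun e => hp (e ▸ hd)
  have hdq : d ≠ q := fun e => hq (e ▸ hd)
  have hdr : d ≠ r := fun e => hr (e ▸ hd)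
  have hqu : q ≠ u := h1.1.symm
  have hqp : q ≠ p := h1.adj2.ne'
  have hru : r ≠ u := h1.2.1.symm
  have hrp : r ≠ p := h1.adj3.ne'
  have hsame : ∀ v, v ≠ z → v ≠ d → v ≠ q → v ≠ r → ct G (insert p (D.erase u)) v = ct G D v := by
    intro v e1 e2 e3 e4
    rw [hct v]
    by_cases e5 : v = u ∨ v = p
    · rw [if_pos ((hNu v).2 (by tauto)), if_pos ((hNp v).2 (by tauto))]; ring
    · rw [if_neg (fun e => e5 (by have := (hNu v).1 e; tauto)),
        if_neg (fun e => e5 (by have := (hNp v).1 e; tauto))]; ring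
  have hz1 : ct G (insert p (D.erase u)) z = 1 := by
    rw [hct z, if_pos ((hNu z).2 (by tauto)), if_neg (fun e => by have := (hNp z).1 e; tauto), hcz]
    norm_num
  have hd1 : ct G (insert p (D.erase u)) d = 1 := by
    rw [hct d, if_pos ((hNu d).2 (by tauto)), if_neg (fun e => by have := (hNp d).1 e; tauto), hcd]
    norm_num
  have hq1 : ct G (insert p (D.erase u)) q = 2 := by
    rw [hct q, if_neg (fun e => by have := (hNu q).1 e; tauto), if_pos ((hNp q).2 (by tauto)), hcq]
    norm_num
  have hr1 : ct G (insert p (D.erase u)) r = 2 := by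
    rw [hct r, if_neg (fun e => by have := (hNu r).1 e; tauto), if_pos ((hNp r).2 (by tauto)), hcr]
    norm_num
  have hp1 : ct G (insert p (D.erase u)) p = 1 := by
    rw [hsame p hzp.symm hdp.symm hqp.symm hrp.symm, hcp]
  have hdom : IsDom G (insert p (D.erase u)) := by
    apply dom_of_ct
    intro v
    by_cases e1 : v = z
    · rw [e1, hz1]
    by_cases e2 : v = d
    · rw [e2, hd1]
    by_cases e3 : v = q
    · rw [e3, hq1]; norm_num
    by_cases e4 : v = r
    · rw [e4, hr1]; norm_num
    rw [hsame v e1 e2 e3 e4]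
    exact ct_pos hD.1 v
  have hmin : IsMinDom G (insert p (D.erase u)) := by
    apply minDom_of hdom
    intro x hx
    rw [mem_insert, mem_erase] at hx
    rcases hx with hx | hx
    · exact ⟨p, Or.inl hx.symm, hp1⟩
    · obtain ⟨w, hw, hcw⟩ := exists_priv hD hx.2
      have hx1 : G.Adj q x ∨ G.Adj r x → ∃ w, (w = x ∨ G.Adj x w) ∧
          ct G (insert p (D.erase u)) w = 1 := by
        intro hx3
        have hx4 := hone x hx.2 hx3
        refine ⟨x, Or.inl rfl, ?_⟩
        rw [hsame x (fun e => hz.1 (e ▸ hx.2)) (fun e => by rw [e, hcd] at hx4; omega)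
          (fun e => hq (e ▸ hx.2)) (fun e => hr (e ▸ hx.2)), hx4]
      by_cases e1 : w = z
      · rw [e1, hcz] at hcw; omega
      by_cases e2 : w = d
      · rw [e2, hcd] at hcw; omega
      by_cases e3 : w = q
      · rcases hw with hw | hw
        · exact absurd (by rw [← e3, hw]; exact hx.2) hq
        · exact hx1 (Or.inl (by rw [← e3]; exact hw.symm))
      by_cases e4 : w = r
      · rcases hw with hw | hw
        · exact absurd (by rw [← e4, hw]; exact hx.2) hr
        · exact hx1 (Or.inr (by rw [← e4]; exact hw.symm))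
      exact ⟨w, hw, by rw [hsame w e1 e2 e3 e4, hcw]⟩
  refine ⟨insert p (D.erase u), hmin, ?_, ?_⟩
  · rw [card_insert_of_notMem (fun e => hp (mem_erase.1 e).2), card_erase_of_mem hu]
    have : 0 < #D := card_pos.2 ⟨u, hu⟩
    omega
  · rw [Finset.ssubset_iff_of_subset]
    · refine ⟨z, mem_filter.2 ⟨mem_univ _, hz⟩, fun e => ?_⟩
      have := (mem_filter.1 e).2.2 z (Or.inl rfl)
      rw [hz1] at this
      omega
    · intro v hv
      have hv' := (mem_filter.1 hv).2
      refine mem_filter.2 ⟨mem_univ _, ?_, ?_⟩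
      · intro hvD
        by_cases e : v = u
        · have := hv'.2 z (Or.inr (by rw [e]; exact h.adj1))
          rw [hz1] at this
          omega
        · exact hv'.1 (mem_insert_of_mem (mem_erase.2 ⟨e, hvD⟩))
      · have hvp : ¬ (p = v ∨ G.Adj v p) := by
          rintro (e | e)
          · exact hv'.1 (by rw [← e]; exact mem_insert_self _ _)
          · have := hv'.2 p (Or.inr e)
            rw [hp1] at this
            omega
        have hvD : v ∉ D := by
          intro hvD
          by_cases e : v = u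
          · have := hv'.2 z (Or.inr (by rw [e]; exact h.adj1))
            rw [hz1] at this
            omega
          · exact hv'.1 (mem_insert_of_mem (mem_erase.2 ⟨e, hvD⟩))
        obtain ⟨e1, hq3, he1⟩ := third hreg (D := D) h1.adj2.symm hqr h1.adj3.ne hq hp hr hcq
        obtain ⟨e2, hr3, he2⟩ := third hreg (D := D) h1.adj3.symm hqr.symm h1.adj2.ne hr hp hq hcr
        have hvq : ¬ (q = v ∨ G.Adj v q) := by
          rintro (e | e)
          · exact hvp (Or.inr (by rw [← e]; exact h1.adj2.symm))
          · rcases (hq3.2.2.2 v).1 e.symm with e | e | e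
            · exact hvp (Or.inl e.symm)
            · exact hvp (Or.inr (by rw [e]; exact h1.adj3.symm))
            · exact hvD (by rw [e]; exact he1)
        have hvr : ¬ (r = v ∨ G.Adj v r) := by
          rintro (e | e)
          · exact hvp (Or.inr (by rw [← e]; exact h1.adj3.symm))
          · rcases (hr3.2.2.2 v).1 e.symm with e | e | e
            · exact hvp (Or.inl e.symm)
            · exact hvp (Or.inr (by rw [e]; exact h1.adj2.symm))
            · exact hvD (by rw [e]; exact he2)
        intro w hw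
        by_cases e1 : w = z
        · rw [e1, hcz]
        by_cases e2 : w = d
        · rw [e2, hcd]
        by_cases e3 : w = q
        · rw [e3] at hw; exact absurd hw hvq
        by_cases e4 : w = r
        · rw [e4] at hw; exact absurd hw hvr
        rw [← hsame w e1 e2 e3 e4]
        exact hv'.2 w hw

end Pool.Agent.H80C
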