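import Pool.Agent.H80C.Swap

set_option autoImplicit false

/-!
Triangles of private vertices.
-/

namespace Pool.Agent.H80C

open Finset Pool.Agent.H80M Classical

variable {V : Type} [Fintype V] {G : SimpleGraph V}

/-- the closed neighbourhood of `v` without `D` -/
noncomputable def tau (G : SimpleGraph V) (D : Finset V) (v : V) : Finset V :=
  univ.filter (fun w => (w = v ∨ G.Adj v w) ∧ w ∉ D)

/-- private neighbours of the neighbours of bad vertices -/
def Cl (G : SimpleGraph V) (D : Finset V) (p : V) : Prop :=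
  p ∉ D ∧ ct G D p = 1 ∧ ∃ u ∈ D, ∃ z, Bad G D z ∧ G.Adj u z ∧ G.Adj p u

lemma mem_tau {D : Finset V} {v w : V} : w ∈ tau G D v ↔ (w = v ∨ G.Adj v w) ∧ w ∉ D := by
  simp [tau]

lemma tau_of {D : Finset V} {v a b e : V} (h : Nb3 G v a b e) (hv : v ∉ D) (ha : a ∉ D)
    (hb : b ∉ D) (he : e ∈ D) : tau G D v = {v, a, b} := by
  ext w
  rw [mem_tau, mem_insert, mem_insert, mem_singleton, h.2.2.2 w]
  constructor
  · rintro ⟨h1, h2⟩
    rcases h1 with h1 | h1 | h1 | h1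
    · exact Or.inl h1
    · exact Or.inr (Or.inl h1)
    · exact Or.inr (Or.inr h1)
    · exact absurd (h1 ▸ he) h2
  · rintro (h1 | h1 | h1)
    · exact ⟨Or.inl h1, h1 ▸ hv⟩
    · exact ⟨Or.inr (Or.inl h1), h1 ▸ ha⟩
    · exact ⟨Or.inr (Or.inr (Or.inl h1)), h1 ▸ hb⟩

/-- the sum over the closed neighbourhood of a private vertex -/
lemma nsum_tau {D : Finset V} {w e : V} (hw : w ∉ D) (hc : ct G D w = 1) (he : e ∈ D)
    (hwe : G.Adj w e) (f : V → ℤ) : nsum G f w = ∑ x ∈ tau G D w, f x + f e := by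
  unfold nsum
  have h : univ.filter (fun u => u = w ∨ G.Adj w u) = insert e (tau G D w) := by
    ext x
    rw [mem_insert, mem_tau, mem_filter]
    constructor
    · rintro ⟨_, h1⟩
      by_cases hx : x ∈ D
      · exact Or.inl (ct_unique hc hx h1 he (Or.inr hwe))
      · exact Or.inr ⟨h1, hx⟩
    · rintro (h1 | h1)
      · exact ⟨mem_univ _, Or.inr (h1 ▸ hwe)⟩
      · exact ⟨mem_univ _, h1.1⟩
  have _ := hw
  rw [h, Finset.sum_insert, add_comm]
  rw [mem_tau]
  exact fun h1 => h1.2 he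

section
variable (hreg : ∀ v, {u | G.Adj v u}.ncard = 3)
  (htri : ∀ v, ∃ a b, G.Adj v a ∧ G.Adj v b ∧ G.Adj a b) {D : Finset V} (hD : IsMinDom G D)

include hreg htri hD in
theorem cl_data {p : V} (hp : Cl G D p) : ∃ u z d q r, Bad G D z ∧ u ∈ D ∧ d ∈ D ∧ Nb3 G u z d p ∧
    G.Adj z d ∧ Nb3 G p u q r ∧ G.Adj q r ∧ q ∉ D ∧ r ∉ D ∧ ct G D q = 1 ∧ ct G D r = 1 := by
  obtain ⟨hpD, hcp, u, hu, z, hz, huz, hpu⟩ := hp
  obtain ⟨d, p', h, hd, hp', hcp', _⟩ := str1 hreg hD hz hu huz.symm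
  have hpp : p = p' := by
    rcases (h.2.2.2 p).1 hpu.symm with h1 | h1 | h1
    · have := hz.2 p (Or.inl h1)
      omega
    · exact absurd (h1 ▸ hd) hpD
    · exact h1
  subst hpp
  obtain ⟨q, r, h1, h2, h3, h4, h5, h6⟩ := str3 hreg htri hD hz hu h hd hpD hcp
  exact ⟨u, z, d, q, r, hz, hu, hd, h, (str4 hreg htri hD hz hu h hd hpD).1, h1, h2, h3, h4, h5, h6⟩

include hreg htri hD in
theorem tau_data {p : V} (hp : Cl G D p) :
    #(tau G D p) = 3 ∧ p ∈ tau G D p ∧ ∀ w ∈ tau G D p, w ∉ D ∧ ct G D w = 1 ∧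
      tau G D w = tau G D p ∧ ∃ e ∈ D, G.Adj w e := by
  obtain ⟨u, z, d, q, r, hz, hu, hd, h, hzd, h1, hqr, hq, hr, hcq, hcr⟩ :=
    cl_data hreg htri hD hp
  have hpD := hp.1
  have hcp := hp.2.1
  have h2 : tau G D p = {p, q, r} := by
    apply tau_of (e := u) _ hpD hq hr hu
    exact h1.rot
  obtain ⟨e1, h3, he1⟩ := third hreg (D := D) h1.adj2.symm hqr h1.adj3.ne hq hpD hr hcq
  obtain ⟨e2, h4, he2⟩ := third hreg (D := D) h1.adj3.symm hqr.symm h1.adj2.ne hr hpD hq hcr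
  have h5 : tau G D q = {p, q, r} := by
    rw [tau_of h3 hq hpD hr he1]
    ext x
    simp only [mem_insert, mem_singleton]
    tauto
  have h6 : tau G D r = {p, q, r} := by
    rw [tau_of h4 hr hpD hq he2]
    ext x
    simp only [mem_insert, mem_singleton]
    tauto
  rw [h2]
  refine ⟨?_, by simp, ?_⟩
  · rw [card_insert_of_notMem, card_insert_of_notMem, card_singleton]
    · rw [mem_singleton]; exact hqr.ne
    · rw [mem_insert, mem_singleton]
      rintro (e | e)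
      · exact h1.adj2.ne e
      · exact h1.adj3.ne e
  · intro w hw
    rw [mem_insert, mem_insert, mem_singleton] at hw
    rcases hw with e | e | e
    · subst e; exact ⟨hpD, hcp, h2, u, hu, h1.adj1⟩
    · subst e; exact ⟨hq, hcq, h5, e1, he1, h3.adj3⟩
    · subst e; exact ⟨hr, hcr, h6, e2, he2, h4.adj3⟩

end

end Pool.Agent.H80C
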